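import Pool.Agent.Helper95.GB.IN.Walk

/-! # GB/IN/Alpha: the characters of the cycles (stub, prove in place)

`c j M = if j = mi e then 1 else 0` is a cocycle (it does not depend on `M`).  `Ax.av_wq` with `F x = if x = mi e then 1 else 0`:
`t a ≠ mi e`.  So `av c (wq x M) = [x = mi e]` for all `M`.  By `av_exw` the value of every `exw` is `0`.
`tw n (.e e')`: `rn (st n) [mi e'] = wq (mi e') _ ++ []`, value `[mi e' = mi e]`, which is `[e' = e]` (`mi` is injective);
`rn (st n) (plL e')`: `[]` or `wq (p c) _ ++ []`, `p c ≠ mi e`, value `0`.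
The walks `tw n (.k ..)`, `tw n (.b ..)`, `tw n (.q ..)` are `exw` (`[] ++ l = l`, by `rfl`).
-/

set_option autoImplicit false

namespace GB

namespace PD

variable {W C Z : Type} {P : PD W C Z}

theorem Ax.alpha (h : P.Ax) (n : ℕ) (e : Ch C Z) :
    ∃ c : JJ W C Z → (EE W C →₀ ℕ) → ℤ, P.Coc c ∧ av c (P.tw n (.e e)) = 1 ∧
      ∀ τ : P.TI n, av c (P.tw n τ) ≠ 0 → τ = .e e := by
  classical
  obtain ⟨F, hF⟩ : ∃ F : JJ W C Z → ℤ, F = fun x => if x = mi e then 1 else 0 := ⟨_, rfl⟩
  have hwq : ∀ (x : JJ W C Z) (M : EE W C →₀ ℕ), av (fun j _ => F j) (P.wq x M) = F x := by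
    intro x M
    refine h.av_wq (fun j _ => F j) M F (fun x _ => rfl) (fun x a _ => ?_) x
    have h1 : F (.t a) = 0 := by
      rw [hF]
      refine if_neg ?_
      rcases e with c | k <;> intro h2 <;> cases h2
    rw [h1, zero_add]
  have hexw : ∀ (S : EE W C →₀ ℕ) (X : List (JJ W C Z)) (x y : JJ W C Z),
      av (fun j _ => F j) (P.exw S X x y) = 0 := by
    intro S X x y
    rw [av_exw, hwq, hwq, hwq, hwq]
    ring
  have hone : ∀ (S : EE W C →₀ ℕ) (x : JJ W C Z),
      av (fun j _ => F j) (P.rn S [x]) = F x := by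
    intro S x
    have h1 : P.rn S [x] = P.wq x (S - δ EE.r) ++ [] := rfl
    rw [h1, List.append_nil, hwq]
  have htw : ∀ e' : Ch C Z, av (fun j _ => F j) (P.tw n (.e e')) = F (mi e') := by
    intro e'
    have h1 : P.tw n (.e e') = P.rn (st n) [mi e'] ++ rv (P.rn (st n) (plL e')) := rfl
    rw [h1, av_append, av_rv, hone]
    have h2 : av (fun j _ => F j) (P.rn (st n) (plL e')) = 0 := by
      rcases e' with c | k
      · have h3 : (plL (.inl c : Ch C Z) : List (JJ W C Z)) = [.p c] := rfl
        rw [h3, hone, hF]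
        refine if_neg ?_
        rcases e with c | k <;> intro h2 <;> cases h2
      · rfl
    rw [h2]
    ring
  refine ⟨fun j _ => F j, fun i j M _ => add_comm _ _, ?_, fun τ hτ => ?_⟩
  · rw [htw, hF]
    exact if_pos rfl
  · cases τ with
    | e e' =>
      rw [htw, hF] at hτ
      have h1 : (mi e' : JJ W C Z) = mi e := by
        by_contra h2
        exact hτ (if_neg h2)
      rcases e with c | k <;> rcases e' with c' | k' <;> cases h1 <;> rfl
    | k X i h' hk => exact absurd (hexw (st n) X.toList i h') hτ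
    | b f hb => exact absurd (hexw (st n) [] (.m f) (.p f)) hτ
    | q i j hq => exact absurd (hexw (st n) [] i j) hτ

end PD

end GB
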