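import Pool.Agent.Helper95.GB.IN.Defs
import Pool.Agent.Helper95.GB.CL.Geo

/-! # GB/IN/Comp: the component of an edge (stub, prove in place)

* `cmp_some`: `CompN v i x` determines `i` (`Ax.comp_uniq`), and `x` is determined by `ε`.
* `cmp_be`: `be none = r`, `loc r = none`; `be (some a) = t a`, and `t a` is not beyond `some a` (`pos (t a) = lo (some a)`), while
`CompN v i x` implies `bey v x` (`inb_bey`, or `vt x = v`).
* `cmp_NL`: `x` is `t a` or `m c` (not `p c`; not `z k`, because the branch `z k` is low: `e = inr k`, `belowP` is trivial),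
and `loc (ed x) = some x`, `inb_self`.
* `cmp_low`: `ed (z k) = r`; for `i = t a`, `m c`: `loc (ed i) = some i`; `CompN v j i` would mean `inb j i` with `vt j = v = vt i`
(`i` is `NP`), so `j = i` (`Ax.part`), but `NL v i` contradicts `low v i`.
* `cmp_inv`: let `vt k ≠ v`.  Let `b` be the location of `be (vt k)`: `none` if `vt k = none`, `t a` if `vt k = some a`.
For `k = t a'` or `k = m c`: `loc (ed k) = some k`; `CompN v i k` iff `NL v i` and `inb i k`.  If `inb i k`, `vt i = v ≠ vt k`, then
`i = t a''`, `bey (some a'') k`, so (`bey_iff`) `some a'' ` is an ancestor-or-equal of `vt k`, `vt k = some a`, and `inb i (t a)`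
(`t a = i` or `bey (some a'') (t a)`).  Conversely `inb i (t a)` and `inb (t a) k` give `inb i k`.  So
`CompN v i k ↔ CompN v i (t a)`, and if `vt k = none` both are `none`.
For `k = p c`: `loc (ed k) = some (m c)`, `pv c ≠ v`.  If `CompN v i (m c)`: `NL v i`, `inb i (m c)`, so `bey v (m c)`; if not
`bey v (p c)` then `i` would be low; so `bey v (p c)`, `pv c ≠ v`, hence `Anc v (pv c)`, `pv c = some a`, `bey v (t a)`, and the
branch at `v` of `t a` contains `m c` (`bey_m`), so it is `i`; `CompN v i (t a)`.  Conversely if `CompN v i (t a)` for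
`pv c = some a` then `inb i (t a)`, `inb (t a) (m c)` (`bey_m`, `inb_t`), `inb i (m c)`.
For `k = z k'`: `loc (ed k) = none`; `CompN v i (t a)` for `zv k' = some a` would give `inb i (t a)`, `inb i (z k')`, so `i` is low,
contradiction.  So both are `none`.
* `cm_add`, `cm_single`: `Finsupp.sum_add_index'`, `Finsupp.sum_single_index`.
* `cm_fin`: for `X.length < n`... `fin_eq`: `fin (st n) X = (n - |X|) • δ r + ∑ δ (ed x)`, so
`fin (st n) X - δ r = (n - |X| - 1) • δ r + ∑ δ (ed x)` for `|X| + 1 ≤ n`, and `cm v (k • δ r) = 0` (`loc r = none`).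
-/

set_option autoImplicit false

namespace GB

namespace PD

variable {W C Z : Type} {P : PD W C Z}

private theorem cmp_none_of {v : Option W} {ε : EE W C}
    (h : ∀ i x, (loc ε : Option (JJ W C Z)) = some x → ¬ P.CompN v i x) : P.cmp v ε = none := by
  unfold PD.cmp
  apply dif_neg
  rintro ⟨i, x, h1, h2⟩
  exact h i x h1 h2

private theorem compN_bey (h : P.Ax) {v : Option W} {i x : JJ W C Z} (hi : P.CompN v i x) :
    P.bey v x := by
  obtain ⟨⟨hv, -, -⟩, h1⟩ := hi
  rcases h1 with h2 | ⟨c, -, hxv, -⟩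
  · have := h.inb_bey h2
    rwa [hv] at this
  · have := h.inb_bey (h.inb_self x)
    rwa [hxv] at this

theorem Ax.cmp_some (h : P.Ax) {v : Option W} {ε : EE W C} {i : JJ W C Z} :
    P.cmp v ε = some i ↔ ∃ x, loc ε = some x ∧ P.CompN v i x := by
  constructor
  · intro hc
    unfold PD.cmp at hc
    split_ifs at hc with h1
    obtain ⟨x, h2, h3⟩ := h1.choose_spec
    have h4 := Option.some.inj hc
    rw [h4] at h3
    exact ⟨x, h2, h3⟩
  · rintro ⟨x, h1, h2⟩
    have h3 : ∃ i x, (loc ε : Option (JJ W C Z)) = some x ∧ P.CompN v i x := ⟨i, x, h1, h2⟩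
    unfold PD.cmp
    rw [dif_pos h3]
    obtain ⟨y, h4, h5⟩ := h3.choose_spec
    have h6 : y = x := Option.some.inj (h4.symm.trans h1)
    rw [h6] at h5
    exact congrArg some (h.comp_uniq h5 h2)

theorem Ax.cmp_be (h : P.Ax) (v : Option W) : P.cmp v (be v) = none := by
  apply cmp_none_of
  intro i x h1 h2
  cases v with
  | none => cases h1
  | some a =>
    have h3 : JJ.t a = x := Option.some.inj h1
    subst h3
    have h4 := (compN_bey h h2).1
    exact lt_irrefl _ h4

theorem Ax.cmp_NL (h : P.Ax) {v : Option W} {x : JJ W C Z} (hx : P.NL v x) :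
    P.cmp v (ed x) = some x := by
  cases x with
  | t a => exact h.cmp_some.2 ⟨_, rfl, hx, Or.inl (h.inb_self _)⟩
  | m c => exact h.cmp_some.2 ⟨_, rfl, hx, Or.inl (h.inb_self _)⟩
  | p c => exact absurd rfl (hx.2.1 c)
  | z k =>
    refine absurd ⟨.inr k, h.inb_self _, ?_⟩ hx.2.2
    intro y hy
    cases hy

theorem Ax.cmp_low (h : P.Ax) {v : Option W} {i : JJ W C Z} (hv : P.vt i = v) (hi : NP i)
    (hl : P.low v i) : P.cmp v (ed i) = none := by
  have h0 : P.LowC v i := Or.inr ⟨i, hv, h.inb_self i, Or.inl ⟨hi, hl⟩⟩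
  apply cmp_none_of
  intro j x h1 h2
  cases i with
  | t a =>
    have h3 : JJ.t a = x := Option.some.inj h1
    subst h3
    exact h.comp_not_low h2 h0
  | m c =>
    have h3 : JJ.m c = x := Option.some.inj h1
    subst h3
    exact h.comp_not_low h2 h0
  | p c => exact hi c rfl
  | z k => cases h1

/-- Lemma A: a branch at `vt i` containing `k`, where `k` is at another vertex. -/
private theorem inb_up (h : P.Ax) {i k : JJ W C Z} (hne : P.vt k ≠ P.vt i) (hi : P.inb i k) :
    ∃ a, P.vt k = some a ∧ P.inb i (.t a) := by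
  cases i with
  | t b =>
    rcases h.inb_t.1 hi with h1 | h1
    · subst h1
      exact absurd rfl hne
    · obtain ⟨h2, h3⟩ := h.bey_iff.1 h1
      cases hv : P.vt k with
      | none =>
        rw [hv] at h2
        have h4 := h.par_lt b
        have h5 := h.lo_none_le (P.par b)
        omega
      | some a =>
        refine ⟨a, rfl, ?_⟩
        rw [hv] at h2 h3
        have h4 := h.a0 (some a)
        have h5 : P.en (.t b) = P.hi (some b) := rfl
        have h6 : P.pos (.t b) = P.lo (some b) := rfl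
        have h7 : P.pos (.t a) = P.lo (some a) := rfl
        refine ⟨?_, ?_⟩
        · rw [h6, h7]
          exact h2
        · rw [h5, h7]
          omega
  | m c =>
    have h1 := (h.inb_leaf (by simp)).1 hi
    subst h1
    exact absurd rfl hne
  | p c =>
    have h1 := (h.inb_leaf (by simp)).1 hi
    subst h1
    exact absurd rfl hne
  | z c =>
    have h1 := (h.inb_leaf (by simp)).1 hi
    subst h1
    exact absurd rfl hne

/-- Lemma B -/
private theorem inb_dn (h : P.Ax) {k : JJ W C Z} {a : W} (hv : P.vt k = some a) :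
    P.inb (.t a) k := by
  have h1 := h.a1 k
  rw [hv] at h1
  exact h.inb_t.2 (Or.inr h1)

/-- a nonlow branch which is not a plus end does not contain the far end of the root edge -/
private theorem no_z (h : P.Ax) {v : Option W} {i : JJ W C Z} {k : Z} (hn : P.NL v i)
    (hi : P.inb i (.z k)) : False := by
  apply hn.2.2
  refine ⟨.inr k, hi, ?_⟩
  intro y hy
  cases hy

private theorem inv_aux (h : P.Ax) {v : Option W} {k : JJ W C Z} (hk : P.vt k ≠ v)
    {i : JJ W C Z} (hn : P.NL v i) :
    P.inb i k ↔ ∃ a, P.vt k = some a ∧ P.inb i (.t a) := by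
  constructor
  · intro hi
    exact inb_up h (by rw [hn.1]; exact hk) hi
  · rintro ⟨a, h1, h2⟩
    exact h.inb_trans h2 (inb_dn h h1)

private theorem cmp_be_some (h : P.Ax) {v w : Option W} {i : JJ W C Z} :
    P.cmp v (be w) = some i ↔ ∃ a, w = some a ∧ P.NL v i ∧ P.inb i (.t a) := by
  rw [h.cmp_some]
  cases w with
  | none =>
    constructor
    · rintro ⟨x, h1, -⟩
      cases h1
    · rintro ⟨a, h1, -⟩
      cases h1
  | some a =>
    constructor
    · rintro ⟨x, h1, h2, h3⟩
      have h4 : JJ.t a = x := Option.some.inj h1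
      subst h4
      rcases h3 with h3 | ⟨c, h3, -⟩
      · exact ⟨a, rfl, h2, h3⟩
      · cases h3
    · rintro ⟨b, h1, h2, h3⟩
      have h4 : a = b := Option.some.inj h1
      subst h4
      exact ⟨_, rfl, h2, Or.inl h3⟩

theorem Ax.cmp_inv (h : P.Ax) {v : Option W} {k : JJ W C Z} (hk : P.vt k ≠ v) :
    P.cmp v (ed k) = P.cmp v (be (P.vt k)) := by
  apply Option.ext
  intro i
  rw [cmp_be_some h, h.cmp_some]
  cases k with
  | t a =>
    constructor
    · rintro ⟨x, h1, h2, h3⟩
      have h4 : JJ.t a = x := Option.some.inj h1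
      subst h4
      rcases h3 with h3 | ⟨c, h3, -⟩
      · obtain ⟨b, h5, h6⟩ := (inv_aux h hk h2).1 h3
        exact ⟨b, h5, h2, h6⟩
      · cases h3
    · rintro ⟨b, h1, h2, h3⟩
      exact ⟨_, rfl, h2, Or.inl ((inv_aux h hk h2).2 ⟨b, h1, h3⟩)⟩
  | m c =>
    constructor
    · rintro ⟨x, h1, h2, h3⟩
      have h4 : JJ.m c = x := Option.some.inj h1
      subst h4
      rcases h3 with h3 | ⟨c, h3, -⟩
      · obtain ⟨b, h5, h6⟩ := (inv_aux h hk h2).1 h3
        exact ⟨b, h5, h2, h6⟩
      · cases h3
    · rintro ⟨b, h1, h2, h3⟩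
      exact ⟨_, rfl, h2, Or.inl ((inv_aux h hk h2).2 ⟨b, h1, h3⟩)⟩
  | p c =>
    have hk' : P.pv c ≠ v := hk
    constructor
    · rintro ⟨x, h1, h2, h3⟩
      have h4 : JJ.m c = x := Option.some.inj h1
      subst h4
      rcases h3 with h3 | ⟨c, h3, -⟩
      · have hb : P.bey v (.p c) := by
          by_contra hb
          apply h2.2.2
          refine ⟨.inl c, h3, ?_⟩
          intro y hy
          have h5 : JJ.p c = y := Option.some.inj hy
          subst h5
          exact hb
        obtain ⟨j, ⟨hj1, hj2⟩, -⟩ := h.part hb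
        have hj3 : j ≠ .p c := by
          rintro rfl
          exact hk' hj1
        have hj4 := h.inb_m_of_p hj2 hj3
        have hm : P.bey v (.m c) := by
          have := h.inb_bey h3
          rwa [h2.1] at this
        have hji := (h.part hm).unique ⟨hj1, hj4⟩ ⟨h2.1, h3⟩
        subst hji
        obtain ⟨b, h5, h6⟩ := (inv_aux h hk h2).1 hj2
        exact ⟨b, h5, h2, h6⟩
      · cases h3
    · rintro ⟨b, h1, h2, h3⟩
      refine ⟨_, rfl, h2, Or.inl ?_⟩
      have h4 := h.bey_m c
      have h5 : P.pv c = some b := h1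
      rw [h5] at h4
      exact h.inb_trans h3 (h.inb_t.2 (Or.inr h4))
  | z k =>
    constructor
    · rintro ⟨x, h1, -⟩
      cases h1
    · rintro ⟨b, h1, h2, h3⟩
      exact (no_z h h2 (h.inb_trans h3 (inb_dn h h1))).elim

theorem cm_add (v : Option W) (M N : EE W C →₀ ℕ) : P.cm v (M + N) = P.cm v M + P.cm v N := by
  unfold PD.cm
  exact Finsupp.sum_add_index' (fun _ => zero_smul _ _) (fun _ _ _ => add_smul _ _ _)

theorem cm_single (v : Option W) (ε : EE W C) : P.cm v (δ ε) = om (P.cmp v ε) := by
  unfold PD.cm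
  have h1 : (δ ε : EE W C →₀ ℕ).sum (fun ε k => k • om (P.cmp v ε)) = 1 • om (P.cmp v ε) :=
    Finsupp.sum_single_index (zero_smul _ _)
  rw [h1, one_smul]

private theorem cm_smul_r (v : Option W) (k : ℕ) :
    P.cm v (k • (δ EE.r : EE W C →₀ ℕ)) = 0 := by
  have h0 : P.cmp v (EE.r : EE W C) = none := by
    apply cmp_none_of
    intro i x h1 _
    cases h1
  induction k with
  | zero =>
    rw [zero_smul]
    rfl
  | succ k ih =>
    rw [add_smul, one_smul, cm_add, ih, cm_single, h0]
    rfl

private theorem fin_sum (k : ℕ) (X : List (JJ W C Z)) (D : EE W C →₀ ℕ) :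
    fin ((X.length + k) • δ EE.r + D) X
      = k • δ EE.r + D + (X.map (fun x => (δ (ed x) : EE W C →₀ ℕ))).sum := by
  induction X generalizing D with
  | nil => simp [fin]
  | cons x X ih =>
    have h1 : ((x :: X).length + k) • (δ EE.r : EE W C →₀ ℕ) + D - δ EE.r + δ (ed x)
        = (X.length + k) • δ EE.r + (D + δ (ed x)) := by
      have h2 : (x :: X).length + k = (X.length + k) + 1 := by
        rw [List.length_cons]
        omega
      rw [h2, add_smul, one_smul, add_right_comm, add_tsub_cancel_right, add_assoc]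
    show fin (((x :: X).length + k) • (δ EE.r : EE W C →₀ ℕ) + D - δ EE.r + δ (ed x)) X = _
    rw [h1, ih, List.map_cons, List.sum_cons]
    abel

private theorem cm_sum (v : Option W) (X : List (JJ W C Z)) :
    P.cm v ((X.map (fun x => (δ (ed x) : EE W C →₀ ℕ))).sum)
      = (X.map (fun x => om (P.cmp v (ed x)))).sum := by
  induction X with
  | nil => rfl
  | cons x X ih =>
    rw [List.map_cons, List.sum_cons, List.map_cons, List.sum_cons, cm_add, cm_single, ih]

theorem cm_fin (v : Option W) (n : ℕ) (X : List (JJ W C Z)) (hX : X.length + 1 ≤ n) :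
    P.cm v (fin (st n) X - δ EE.r) = (X.map (fun x => om (P.cmp v (ed x)))).sum := by
  obtain ⟨k, rfl⟩ : ∃ k, n = X.length + (k + 1) := ⟨n - X.length - 1, by omega⟩
  have h1 := fin_sum (k + 1) X (0 : EE W C →₀ ℕ)
  rw [add_zero, add_zero] at h1
  have h2 : fin (st (X.length + (k + 1))) X - δ EE.r
      = k • δ EE.r + (X.map (fun x => (δ (ed x) : EE W C →₀ ℕ))).sum := by
    unfold st
    rw [h1, add_smul, one_smul, add_right_comm, add_tsub_cancel_right]
  rw [h2, cm_add, cm_smul_r, zero_add, cm_sum]

end PD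

end GB
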