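import Pool.Agent.Helper95.GB.IN.Walk
import Pool.Agent.Helper95.GB.IN.Comp

/-! # GB/IN/Beta: the local characters (stub, prove in place)

* `cK_coc`: for `vt i ≠ vt j`: `cK v Y h0 i (M + δ (be (vt j))) = cK v Y h0 i (M + δ (ed j))`: trivial for `i ≠ h0`; if `i = h0`
then `vt j ≠ v`, use `cmp_inv` for `j`, `cm_add`, `cm_single`.
* `av_cK`: `Ax.av_wq` with `F x = if inb h0 x ∧ cm v M = Y then 1 else 0`: for `vt x = none`: `inb h0 x ↔ x = h0` (`inb_t`, `bey_iff`);
for `vt x = some a`: `inb h0 x` iff `x = h0` or `inb h0 (t a)`, and not both (`inb h0 (t a)` and `vt h0 = vt x = some a` impossible).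
* Let `E = av (cK v Y h0) (exw (st n) X x y)`, `X.length + 2 ≤ n`, `Y = X0 + {i0}`, `κ x = om (cmp v (ed x))`, `A = (X.map κ).sum`.
By `av_exw`, `cm_fin`, `av_cK`:
(*) `E = [inb h0 x][A = Y] + [inb h0 y][A + κ x = Y] - [inb h0 y][A = Y] - [inb h0 x][A + κ y = Y]`.
* `beta_K`.  Let `v = vt i0`, `KI n X0 i0 h0`, `KI n X i h'`, `E` for `X.toList`, `x = i`, `y = h'`; `v' = vt i = vt h'`.
If `v' ≠ v`: `κ i = κ h'` (`cmp_inv`, both are `om (cmp v (be v'))`) and `inb h0 i ↔ inb h0 h'` (`h0 = t a`, `bey (some a) _`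
depends only on the vertex, `bey_iff`), so `E = 0`.
If `v' = v`: `A = X` (`cmp_NL` for the elements of `X`; `Multiset.coe_toList`), `κ i = {i}`; `inb h0 i ↔ i = h0`,
`inb h0 h' ↔ h' = h0` (`Ax.part`).  Suppose `E ≠ 0`; then `h' = h0` or `i = h0`.
 (1) `h' = h0` (so `i ≠ h0`): `E = [X + {i} = X0 + {i0}] - [X = X0 + {i0}]`.  If `X = X0 + {i0}`: `X.card = X0.card + 1`, the level is
smaller.  If `X + {i} = X0 + {i0}`: `i` and `i0` are both the element of smallest position, so `i = i0` (`a4`) and `X = X0`.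
 (2) `i = h0` (so `h0` is `NL`, `pos i0 < pos h0` as `h0 ≠ i0` and `¬ (NL h0 ∧ pos h0 < pos i0)`; `h' ≠ h0`):
`E = [X = X0 + {i0}] - [X + κ h' = X0 + {i0}]`.  If `X = X0 + {i0}`: smaller level (`2 (n - X0.card - 1) + 1 + 1 < 2 (n - X0.card) + 2`).
Otherwise `X + κ h' = X0 + {i0}`, `κ h' = {r}`: `i0 ∈ X` is impossible, since `pos i = pos h0 ≤` all positions of `X`, but
`pos i0 < pos h0`.  So `r = i0` and `X = X0`.  `h' = i0` is impossible (`KI n X i h'`: `¬ (NL h' ∧ pos h' < pos i)`).  `NL h'` is impossible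
(otherwise `κ h' = {h'}`, `h' = i0`).  So the level of `(X, i, h')` is `2 (n - X0.card) + 0 + 1 < 2 (n - X0.card) + 1 + 1`.
* `beta_diag`: `E = [i0 = h0]... = 1`: `A + κ i0 = Y`, `inb h0 h0`, `A ≠ Y` (cards), `¬ inb h0 i0`.
* `beta_B`: (*) with `X = []`, `x = m f`, `y = p f`, `κ x = κ y` (`ed (m f) = ed (p f)`), `0 ≠ Y`:
`E = ([inb h0 (p f)] - [inb h0 (m f)]) [κ (m f) = X0 + {i0}]`.  If `E ≠ 0`: `cmp v (c f) = some i0`, so `CompN v i0 (m f)`, `NL v i0`,
`inb i0 (m f)`; `inb h0 (m f)` would give `h0 = i0` (`Ax.part`); so `inb h0 (p f)`, not `inb h0 (m f)`, so `h0 = p f` (`inb_m_of_p`),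
`v = pv f`; but `BI n f` says that the branch of `m f` at `pv f` (which is `i0`, `Ax.part`) is low, contradiction.
* `beta_Q`: (*) with `X = []`, `x = i`, `y = j`: `E = [inb h0 j][κ i = Y] - [inb h0 i][κ j = Y]`.  If `vt i ≠ v`: `κ i = κ j`,
`inb h0 i ↔ inb h0 j`, `E = 0`.  If `vt i = v`: `κ i = κ j = 0` (`cmp_low`), `E = 0`.
-/

set_option autoImplicit false

namespace GB

namespace PD

variable {W C Z : Type} {P : PD W C Z}

private theorem inb_some (h : P.Ax) {h0 x : JJ W C Z} {a : W} (hx : P.vt x = some a) :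
    P.inb h0 x ↔ (x = h0 ∨ P.inb h0 (.t a)) := by
  by_cases ht : ∃ b, h0 = .t b
  · obtain ⟨b, rfl⟩ := ht
    rw [h.inb_t, h.bey_iff, hx]
    refine or_congr Iff.rfl ?_
    have e1 : P.pos (.t a : JJ W C Z) = P.lo (some a) := rfl
    have e2 : P.pos (.t b : JJ W C Z) = P.lo (some b) := rfl
    have e3 : P.en (.t b : JJ W C Z) = P.hi (some b) := rfl
    constructor
    · rintro ⟨h1, h2⟩
      refine ⟨by rw [e1, e2]; exact h1, ?_⟩
      rw [e1, e3]
      exact ((h.a0 (some a)).trans_le h2).le
    · intro h1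
      rcases h.inb_t.1 h1 with h2 | h2
      · cases h2
        exact ⟨le_rfl, le_rfl⟩
      · obtain ⟨h3, h4⟩ := h.a3 (some b) (.t a) h2.1 h2.2
        have h5 := h.par_lt a
        have h6 := h.a2 a
        have e4 : P.vt (.t a : JJ W C Z) = P.par a := rfl
        rw [e4] at h3 h4
        exact ⟨by omega, by omega⟩
  · have hk : ∀ a, h0 ≠ .t a := fun a ha => ht ⟨a, ha⟩
    rw [h.inb_leaf hk, h.inb_leaf hk]
    refine ⟨Or.inl, ?_⟩
    rintro (h1 | h1)
    · exact h1
    · exact absurd h1.symm (hk a)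

private theorem inb_none (h : P.Ax) {h0 x : JJ W C Z} (hx : P.vt x = none) :
    P.inb h0 x ↔ x = h0 := by
  by_cases ht : ∃ b, h0 = .t b
  · obtain ⟨b, rfl⟩ := ht
    rw [h.inb_t, h.bey_iff, hx]
    refine ⟨?_, Or.inl⟩
    rintro (h1 | ⟨h1, _⟩)
    · exact h1
    · have h2 := h.par_lt b
      have h3 := h.lo_none_le (P.par b)
      omega
  · exact h.inb_leaf fun a ha => ht ⟨a, ha⟩

private theorem inb_up_ne (h : P.Ax) {h0 : JJ W C Z} {a : W} (hv : P.vt h0 = some a) :
    ¬ P.inb h0 (.t a) := by
  intro h1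
  have h2 := (h.a1 h0).1
  rw [hv] at h2
  have h3 : P.pos h0 ≤ P.lo (some a) := h1.1
  omega

private theorem inb_congr (h : P.Ax) {h0 x y : JJ W C Z} (hxy : P.vt x = P.vt y)
    (hne : P.vt x ≠ P.vt h0) : P.inb h0 x ↔ P.inb h0 y := by
  have hx : x ≠ h0 := fun e => hne (by rw [e])
  have hy : y ≠ h0 := fun e => hne (by rw [hxy, e])
  cases hv : P.vt x with
  | none =>
    rw [inb_none h hv, inb_none h (hxy.symm.trans hv)]
    exact ⟨fun e => absurd e hx, fun e => absurd e hy⟩
  | some a =>
    rw [inb_some h hv, inb_some h (hxy.symm.trans hv)]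
    exact ⟨fun e => Or.inr (e.resolve_left hx), fun e => Or.inr (e.resolve_left hy)⟩

private theorem inb_eq (h : P.Ax) {h0 x : JJ W C Z} (hv : P.vt x = P.vt h0) :
    P.inb h0 x ↔ x = h0 := by
  constructor
  · intro h1
    have hb : P.bey (P.vt h0) x := h.inb_bey h1
    obtain ⟨k, _, hk⟩ := h.part hb
    rw [hk h0 ⟨rfl, h1⟩, hk x ⟨hv, h.inb_self x⟩]
  · rintro rfl
    exact h.inb_self _

theorem Ax.cK_coc (h : P.Ax) (v : Option W) (Y : Multiset (JJ W C Z)) (h0 : JJ W C Z)
    (hv : P.vt h0 = v) : P.Coc (P.cK v Y h0) := by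
  classical
  have key : ∀ i j M, P.vt i ≠ P.vt j →
      P.cK v Y h0 i (M + δ (be (P.vt j))) = P.cK v Y h0 i (M + δ (ed j)) := by
    intro i j M hij
    unfold cK
    by_cases hi : i = h0
    · have hj : P.vt j ≠ v := by
        rw [← hv, ← hi]; exact fun e => hij e.symm
      rw [cm_add, cm_add, cm_single, cm_single, h.cmp_inv hj]
    · rw [if_neg (fun e => hi e.1), if_neg (fun e => hi e.1)]
  intro i j M hij
  rw [key i j M hij, key j i M (fun e => hij e.symm)]
  ring

open Classical in
theorem Ax.av_cK (h : P.Ax) (v : Option W) (Y : Multiset (JJ W C Z)) (h0 : JJ W C Z)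
    (hv : P.vt h0 = v) (x : JJ W C Z) (M : EE W C →₀ ℕ) :
    av (P.cK v Y h0) (P.wq x M) = if P.inb h0 x ∧ P.cm v M = Y then 1 else 0 := by
  refine h.av_wq (P.cK v Y h0) M (fun x => if P.inb h0 x ∧ P.cm v M = Y then 1 else 0) ?_ ?_ x
  · intro x hx
    unfold cK
    simp only [inb_none h hx]
  · intro x a hx
    unfold cK
    simp only [inb_some h hx]
    by_cases h1 : x = h0
    · have h2 : ¬ P.inb h0 (.t a) := inb_up_ne h (by rw [← h1]; exact hx)
      by_cases h3 : P.cm v M = Y
      · simp [h1, h2, h3]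
      · simp [h3]
    · by_cases h3 : P.cm v M = Y
      · simp [h1, h3]
      · simp [h3]

private noncomputable def ka (P : PD W C Z) (v : Option W) (x : JJ W C Z) :
    Multiset (JJ W C Z) := om (P.cmp v (ed x))

open Classical in
private theorem star (h : P.Ax) {v : Option W} {Y : Multiset (JJ W C Z)} {h0 : JJ W C Z}
    (hv : P.vt h0 = v) {n : ℕ} (X : List (JJ W C Z)) (hX : X.length + 2 ≤ n) (x y : JJ W C Z) :
    av (P.cK v Y h0) (P.exw (st n) X x y) =
      (if P.inb h0 x ∧ (X.map (ka P v)).sum = Y then 1 else 0) +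
      (if P.inb h0 y ∧ (X.map (ka P v)).sum + ka P v x = Y then 1 else 0) -
      ((if P.inb h0 y ∧ (X.map (ka P v)).sum = Y then 1 else 0) +
      (if P.inb h0 x ∧ (X.map (ka P v)).sum + ka P v y = Y then 1 else 0)) := by
  have e1 : ∀ z, P.cm v (fin (st n) (X ++ [z]) - δ EE.r)
      = (X.map (ka P v)).sum + ka P v z := by
    intro z
    rw [cm_fin v n (X ++ [z]) (by simp; omega), List.map_append, List.sum_append,
      List.map_cons, List.map_nil, List.sum_cons, List.sum_nil, add_zero]
    rfl
  have e2 : P.cm v (fin (st n) X - δ EE.r) = (X.map (ka P v)).sum := by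
    rw [cm_fin v n X (by omega)]
    rfl
  rw [av_exw, h.av_cK v Y h0 hv, h.av_cK v Y h0 hv, h.av_cK v Y h0 hv, h.av_cK v Y h0 hv,
    e1 x, e1 y, e2]

private theorem ka_NL (h : P.Ax) {v : Option W} {x : JJ W C Z} (hx : P.NL v x) :
    ka P v x = {x} := by
  unfold ka
  rw [h.cmp_NL hx]
  rfl

private theorem sum_ka (h : P.Ax) {v : Option W} (X : Multiset (JJ W C Z))
    (hX : ∀ x ∈ X, P.NL v x) : (X.toList.map (ka P v)).sum = X := by
  have key : ∀ L : List (JJ W C Z), (∀ x ∈ L, P.NL v x) →
      (L.map (ka P v)).sum = (L : Multiset (JJ W C Z)) := by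
    intro L
    induction L with
    | nil => intro _; rfl
    | cons x L ih =>
      intro hL
      rw [List.map_cons, List.sum_cons, ih fun y hy => hL y (List.mem_cons_of_mem x hy),
        ka_NL h (hL x List.mem_cons_self)]
      rw [← Multiset.cons_coe, Multiset.singleton_add]
  rw [key X.toList fun x hx => hX x (Multiset.mem_toList.1 hx), Multiset.coe_toList]

private theorem add_ne (X0 : Multiset (JJ W C Z)) (i0 : JJ W C Z) : X0 ≠ X0 + {i0} := by
  intro e
  have := congrArg Multiset.card e
  rw [Multiset.card_add, Multiset.card_singleton] at this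
  omega

private theorem zero_ne (X0 : Multiset (JJ W C Z)) (i0 : JJ W C Z) : 0 ≠ X0 + {i0} := by
  intro e
  have := congrArg Multiset.card e
  rw [Multiset.card_add, Multiset.card_singleton, Multiset.card_zero] at this
  omega

private theorem om_eq {o : Option (JJ W C Z)} {X0 : Multiset (JJ W C Z)} {i0 : JJ W C Z}
    (e : om o = X0 + {i0}) : o = some i0 := by
  cases o with
  | none => exact absurd e (zero_ne X0 i0)
  | some j =>
    have e1 : ({j} : Multiset (JJ W C Z)) = X0 + {i0} := e
    have h1 : i0 ∈ ({j} : Multiset (JJ W C Z)) := by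
      rw [e1]
      exact Multiset.mem_add.2 (Or.inr (Multiset.mem_singleton_self _))
    rw [Multiset.mem_singleton.1 h1]

theorem Ax.beta_diag (h : P.Ax) {n : ℕ} {X0 : Multiset (JJ W C Z)} {i0 h0 : JJ W C Z}
    (h1 : P.KI n X0 i0 h0) :
    av (P.cK (P.vt i0) (X0 + {i0}) h0) (P.tw n (.k X0 i0 h0 h1)) = 1 := by
  classical
  obtain ⟨g1, g2, g3, g4, g5, g6⟩ := id h1
  have e : P.tw n (.k X0 i0 h0 h1) = P.exw (st n) X0.toList i0 h0 := rfl
  have hn1 : ¬ P.inb h0 i0 := fun e => g4 ((inb_eq h g3.symm).1 e).symm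
  rw [e, star h g3 _ (by rw [Multiset.length_toList]; exact g6),
    sum_ka h X0 fun x hx => (g2 x hx).1, ka_NL h g1,
    if_neg fun e => hn1 e.1, if_pos ⟨h.inb_self h0, rfl⟩,
    if_neg fun e => add_ne X0 i0 e.2, if_neg fun e => hn1 e.1]
  norm_num

theorem Ax.beta_K (h : P.Ax) {n : ℕ} {X0 : Multiset (JJ W C Z)} {i0 h0 : JJ W C Z}
    (h1 : P.KI n X0 i0 h0) {X : Multiset (JJ W C Z)} {i h' : JJ W C Z} (h2 : P.KI n X i h')
    (hne : av (P.cK (P.vt i0) (X0 + {i0}) h0) (P.tw n (.k X i h' h2)) ≠ 0) :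
    (.k X i h' h2 : P.TI n) = .k X0 i0 h0 h1 ∨
      P.lev n (.k X i h' h2) < P.lev n (.k X0 i0 h0 h1) := by
  classical
  obtain ⟨g1, g2, g3, g4, g5, g6⟩ := id h1
  obtain ⟨f1, f2, f3, f4, f5, f6⟩ := id h2
  have e : P.tw n (.k X i h' h2) = P.exw (st n) X.toList i h' := rfl
  rw [e, star h g3 _ (by rw [Multiset.length_toList]; exact f6)] at hne
  by_cases hv : P.vt i = P.vt i0
  · -- the same vertex
    have hA : (X.toList.map (ka P (P.vt i0))).sum = X :=
      sum_ka h X fun x hx => by rw [← hv]; exact (f2 x hx).1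
    have hi : ka P (P.vt i0) i = {i} := ka_NL h (by rw [← hv]; exact f1)
    rw [hA, hi] at hne
    have q1 : P.inb h0 i ↔ i = h0 := inb_eq h (hv.trans g3.symm)
    have q2 : P.inb h0 h' ↔ h' = h0 := inb_eq h (f3.trans (hv.trans g3.symm))
    simp only [q1, q2] at hne
    -- smaller level if `X = Y`
    have small : X = X0 + {i0} → P.lev n (.k X i h' h2) < P.lev n (.k X0 i0 h0 h1) := by
      intro hX
      have hc := congrArg Multiset.card hX
      rw [Multiset.card_add, Multiset.card_singleton] at hc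
      unfold lev
      simp only
      split_ifs <;> omega
    by_cases hh : h' = h0
    · have hih : i ≠ h0 := fun e => f4 (by rw [hh, e])
      by_cases hX : X = X0 + {i0}
      · exact Or.inr (small hX)
      · by_cases hX' : X + {i} = X0 + {i0}
        · left
          have m1 : i ∈ X0 + {i0} := by
            rw [← hX']; exact Multiset.mem_add.2 (Or.inr (Multiset.mem_singleton_self _))
          have m2 : i0 ∈ X + {i} := by
            rw [hX']; exact Multiset.mem_add.2 (Or.inr (Multiset.mem_singleton_self _))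
          have p1 : P.pos i0 ≤ P.pos i := by
            rcases Multiset.mem_add.1 m1 with m | m
            · exact (g2 i m).2
            · rw [Multiset.mem_singleton.1 m]
          have p2 : P.pos i ≤ P.pos i0 := by
            rcases Multiset.mem_add.1 m2 with m | m
            · exact (f2 i0 m).2
            · rw [Multiset.mem_singleton.1 m]
          have hi0 : i = i0 := h.a4 (le_antisymm p2 p1)
          subst hi0
          have hXX : X = X0 := add_right_cancel hX'
          subst hXX
          subst hh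
          rfl
        · exfalso
          apply hne
          simp [hh, hih, hX, hX']
    · by_cases hih : i = h0
      · by_cases hX : X = X0 + {i0}
        · exact Or.inr (small hX)
        · by_cases hX' : X + ka P (P.vt i0) h' = X0 + {i0}
          · right
            have nl : P.NL (P.vt i0) h0 := by rw [← hih, ← hv]; exact f1
            have p1 : P.pos i0 < P.pos h0 := by
              rcases lt_trichotomy (P.pos i0) (P.pos h0) with p | p | p
              · exact p
              · exact absurd (h.a4 p).symm g4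
              · exact absurd ⟨nl, p⟩ g5
            have m1 : i0 ∈ X + ka P (P.vt i0) h' := by
              rw [hX']; exact Multiset.mem_add.2 (Or.inr (Multiset.mem_singleton_self _))
            have m2 : i0 ∈ ka P (P.vt i0) h' := by
              rcases Multiset.mem_add.1 m1 with m | m
              · have := (f2 i0 m).2
                rw [hih] at this
                omega
              · exact m
            have hk : ka P (P.vt i0) h' = {i0} := by
              unfold ka at m2 ⊢
              cases ho : P.cmp (P.vt i0) (ed h') with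
              | none =>
                rw [ho] at m2
                exact absurd m2 (Multiset.notMem_zero _)
              | some j =>
                rw [ho] at m2
                have : i0 = j := Multiset.mem_singleton.1 m2
                rw [this]
                rfl
            rw [hk] at hX'
            have hXX : X = X0 := add_right_cancel hX'
            have nn : ¬ P.NL (P.vt i) h' := by
              intro hn
              have hk' := ka_NL h (v := P.vt i0) (by rw [← hv]; exact hn)
              rw [hk] at hk'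
              have e1 : i0 = h' := Multiset.singleton_inj.1 hk'
              refine f5 ⟨hn, ?_⟩
              rw [← e1, hih]
              exact p1
            unfold lev
            simp only
            rw [if_neg nn, if_pos nl, hXX]
            omega
          · exfalso
            apply hne
            simp [hh, hih, hX, hX']
      · exfalso
        apply hne
        simp [hh, hih]
  · exfalso
    apply hne
    have q : P.inb h0 i ↔ P.inb h0 h' := inb_congr h f3.symm (by rw [g3]; exact hv)
    have k : ka P (P.vt i0) i = ka P (P.vt i0) h' := by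
      unfold ka
      rw [h.cmp_inv hv, h.cmp_inv (k := h') (by rw [f3]; exact hv), f3]
    simp only [q, k]
    ring

theorem Ax.beta_B (h : P.Ax) {n : ℕ} {X0 : Multiset (JJ W C Z)} {i0 h0 : JJ W C Z}
    (h1 : P.KI n X0 i0 h0) {f : C} (h2 : P.BI n f) :
    av (P.cK (P.vt i0) (X0 + {i0}) h0) (P.tw n (.b f h2)) = 0 := by
  classical
  obtain ⟨g1, g2, g3, g4, g5, g6⟩ := id h1
  obtain ⟨hn, ⟨j, j1, j2, j3⟩, _⟩ := id h2
  have e : P.tw n (.b f h2) = P.exw (st n) [] (.m f) (.p f) := rfl
  rw [e, star h g3 [] (by simpa using hn)]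
  have k : ka P (P.vt i0) (.p f) = ka P (P.vt i0) (.m f) := rfl
  simp only [List.map_nil, List.sum_nil, zero_add, k, zero_ne X0 i0, and_false, if_false]
  by_cases hk : ka P (P.vt i0) (.m f) = X0 + {i0}
  · have ho := om_eq hk
    obtain ⟨x, hx, hc⟩ := h.cmp_some.1 ho
    have hxm : JJ.m f = x := Option.some.inj hx
    subst hxm
    have hi : P.inb i0 (.m f) := by
      rcases hc.2 with q | ⟨c, q, _⟩
      · exact q
      · exact absurd q (by simp)
    have hb : P.bey (P.vt i0) (.m f) := h.inb_bey hi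
    obtain ⟨k0, _, hk0⟩ := h.part hb
    have hm : ¬ P.inb h0 (.m f) := by
      intro q
      apply g4
      rw [hk0 h0 ⟨g3, q⟩, hk0 i0 ⟨rfl, hi⟩]
    have hp : ¬ P.inb h0 (.p f) := by
      intro q
      by_cases hh : h0 = .p f
      · have hv : P.vt i0 = P.pv f := by rw [← g3, hh]; rfl
        have hji : j = i0 := by
          rw [hk0 j ⟨by rw [hv]; exact j1, j2⟩, hk0 i0 ⟨rfl, hi⟩]
        apply g1.2.2
        rw [hv, ← hji]
        exact j3
      · exact hm (h.inb_m_of_p q hh)
    simp only [hp, hm, false_and, if_false, sub_zero]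
  · simp only [hk, and_false, if_false, sub_zero]

theorem Ax.beta_Q (h : P.Ax) {n : ℕ} {X0 : Multiset (JJ W C Z)} {i0 h0 : JJ W C Z}
    (h1 : P.KI n X0 i0 h0) {i j : JJ W C Z} (h2 : P.QI n i j) :
    av (P.cK (P.vt i0) (X0 + {i0}) h0) (P.tw n (.q i j h2)) = 0 := by
  classical
  obtain ⟨g1, g2, g3, g4, g5, g6⟩ := id h1
  obtain ⟨hn, f1, f2, f3, f4, f5, f6, _⟩ := id h2
  have e : P.tw n (.q i j h2) = P.exw (st n) [] i j := rfl
  rw [e, star h g3 [] (by simpa using hn)]
  simp only [List.map_nil, List.sum_nil, zero_add, zero_ne X0 i0, and_false, if_false]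
  by_cases hv : P.vt i = P.vt i0
  · have k1 : ka P (P.vt i0) i = 0 := by
      unfold ka
      rw [h.cmp_low hv f3 (by rw [← hv]; exact f5)]
      rfl
    have k2 : ka P (P.vt i0) j = 0 := by
      unfold ka
      rw [h.cmp_low (f1.symm.trans hv) f4 (by rw [← hv]; exact f6)]
      rfl
    simp only [k1, k2, zero_ne X0 i0, and_false, if_false, sub_zero]
  · have q : P.inb h0 i ↔ P.inb h0 j := inb_congr h f1 (by rw [g3]; exact hv)
    have k : ka P (P.vt i0) i = ka P (P.vt i0) j := by
      unfold ka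
      rw [h.cmp_inv hv, h.cmp_inv (k := j) (by rw [← f1]; exact hv), f1]
    simp only [q, k]
    ring

end PD

end GB
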