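import Pool.Agent.Helper95.GB.GE.Paths

/-! # GB/IN: definitions for the independence block -/

set_option autoImplicit false

namespace GB

namespace PD

variable {W C Z : Type} (P : PD W C Z)

/-- additive cocycles on the reduced complex -/
def Coc (c : JJ W C Z → (EE W C →₀ ℕ) → ℤ) : Prop := ∀ i j M, P.vt i ≠ P.vt j →
  c i (M + δ (be (P.vt j))) + c j (M + δ (ed i)) = c j (M + δ (be (P.vt i))) + c i (M + δ (ed j))

/-- additive value of a walk -/
def av (c : JJ W C Z → (EE W C →₀ ℕ) → ℤ) (w : Wk W C Z) : ℤ :=
  (w.map (fun a => if a.2 then c a.1.1 a.1.2 else - c a.1.1 a.1.2)).sum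

/-- the closed walk which exchanges `x` and `y` after `X`, starting from `S` -/
noncomputable def exw (S : EE W C →₀ ℕ) (X : List (JJ W C Z)) (x y : JJ W C Z) : Wk W C Z :=
  P.rn S (X ++ [x, y]) ++ rv (P.rn S (X ++ [y, x]))

/-- the location of an edge (`none`: the root edge) -/
def loc : EE W C → Option (JJ W C Z)
  | .r => none
  | .t a => some (.t a)
  | .c c => some (.m c)

/-- the nonlow component of the graph minus `v` containing the edge (`none`: low component) -/
noncomputable def cmp (v : Option W) (ε : EE W C) : Option (JJ W C Z) := by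
  classical exact
    if h : ∃ i x, (loc ε : Option (JJ W C Z)) = some x ∧ P.CompN v i x then some h.choose else none

/-- the multiset of an optional element -/
def om (o : Option (JJ W C Z)) : Multiset (JJ W C Z) := match o with
  | none => 0
  | some i => {i}

/-- the multiset of the nonlow components (at `v`) of the particles in `M` -/
noncomputable def cm (v : Option W) (M : EE W C →₀ ℕ) : Multiset (JJ W C Z) :=
  M.sum (fun ε k => k • om (P.cmp v ε))

/-- the local cocycle at `v` -/
noncomputable def cK (v : Option W) (Y : Multiset (JJ W C Z)) (h0 : JJ W C Z)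
    (j : JJ W C Z) (M : EE W C →₀ ℕ) : ℤ := by
  classical exact if j = h0 ∧ P.cm v M = Y then 1 else 0

/-- the exchange phases of a two particle character -/
structure Star (SS : JJ W C Z → JJ W C Z → ℤ) : Prop where
  anti : ∀ x y, SS y x = - SS x y
  cmp : ∀ x y, P.inb x y → SS x y = 0
  br : ∀ i j x y, P.vt i = P.vt j → i ≠ j → P.inb i x → P.inb j y → SS x y = SS i j
  rel : ∀ e f, P.bey (P.pv f) (mi e) → P.belowP (P.pv f) e →
    SS (mi e) (.p f) = SS (mi e) (.m f)

/-- `(e, f)` is a witness for the branches `i`, `j` -/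
def Wit (i j : JJ W C Z) (e : Ch C Z) (f : C) : Prop := P.vt i = P.vt j ∧
  P.pos i < P.pos j ∧ P.inb i (mi e) ∧ P.inb j (.m f) ∧
  P.belowP (P.vt i) e ∧ P.belowP (P.vt i) (.inl f) ∧ P.hgt e < P.hgt (.inl f)

/-- compatible data for a `Star` -/
def Dat (va : C → ℤ) (β : JJ W C Z → JJ W C Z → ℤ) : Prop :=
  ∀ i j e f, P.Wit i j e f → β i j = va f

/-- level of a generator -/
noncomputable def lev (n : ℕ) : P.TI n → ℕ
  | .e _ => 0
  | .k X i h _ => 2 * (n - X.card) + (by classical exact if P.NL (P.vt i) h then 1 else 0) + 1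
  | .b _ _ => 2 * n + 3
  | .q _ _ _ => 2 * n + 3

end PD

end GB
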