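import Pool.Agent.Helper95.GB.IN.Walk
import Pool.Agent.Helper95.GB.CL.Geo

/-! # GB/IN/Two: two particle characters (stub, prove in place)

Extend `SS` to `o : Option JJ` by `0` if an argument is `none`: `So`.  Let `A y x = if pos x < pos y then SS x y else 0`, extended
by `0` to options: `Ao`.  For all options: (1) `Ao y x - Ao x y = So x y` (`a4`, `SS x x = 0`).
Let `tl j = loc (ed j)`, `sl j = loc (be (vt j))` (options); for `j = t a`, `m c`: `tl j = some j`; `tl (p c) = some (m c)`, `tl (z k) = none`;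
`sl j = none` if `vt j = none`, `sl j = some (t a)` if `vt j = some a`.
Let `Gg j x = So x (some j) + Ao x (tl j)`, `kk j x = Gg j x - Ao (sl j) x` for `x : Option JJ`, and
`c j M = M.sum (fun ε m => (m : ℤ) * kk j (loc ε))`.  (2) By (1): if `tl j = some j` then `Gg j x = Ao (some j) x`.
(3) `kk j x = So x (some j) - So x (sl j) + Ao x (tl j) - Ao x (sl j)`.
`c j (M + δ ε) = c j M + kk j (loc ε)`, so the cocycle condition for `i`, `j` reads `D i j = D j i` where
`D i j = kk i (tl j) - kk i (sl j)`.  By (3) and (1) and antisymmetry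
`D i j - D j i = B1 - B2`, `B1 = So (tl i) (tl j) - So i (tl j) - So (tl i) j + So i j`,
`B2 = So i j - So i (sl j) - So (sl i) j + So (sl i) (sl j)` (with `i`, `j` for `some i`, `some j`).
`B2 = 0` for `vt i ≠ vt j`: if neither vertex is a strict ancestor of the other one: `vt i = some a`, `vt j = some b`, `t a` and `t b` are
not comparable, `Ax.meet` gives branches `k ≠ l` with `inb k (t a)`, `inb l (t b)`, `inb k i`, `inb l j`, so all four terms are
`SS k l`.  If `Anc (vt j) (vt i)`: let `k` be the branch at `vt j` containing everything beyond `vt i` (`anc_branch`), also `t a` where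
`vt i = some a` (`inb k (t a)`).  `SS i j = SS (t a) j` (both are `SS k j` if `k ≠ j`, and `0` if `k = j` (`Star.cmp`)); if `vt j = some b` then
`inb (t b) i`, `inb (t b) (t a)`, so the two other terms are `0`.  The case `Anc (vt i) (vt j)` is symmetric.
`B1 = 0` for `vt i ≠ vt j`: if `tl i = some i` or `tl j = some j` it is `0`.  `i = z _`, `j = z _`: `vt i = vt j` by `zz`.
`i = p f`, `j = p f'`: `B1 = SS (m f) (m f') - SS (p f) (m f') - SS (m f) (p f') + SS (p f) (p f')`.  If `pv f`, `pv f'` are incomparable: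
`Ax.meet` for the edges `t a`, `t b` (`pv f = some a`, `pv f' = some b`), all four are equal.  If `Anc (pv f') (pv f)`: `m f`, `p f` are in one
branch `k ≠ p f'` at `pv f'`, so `SS (p f) (p f') = SS (m f) (p f')`.  `SS (m f) (m f') = SS (p f) (m f')`: if `bey (pv f) (m f')` this is
`rel` for `e = inl f'` (`belowP`: `below_of_anc`) and antisymmetry; otherwise `Ax.meet (p f) (m f')` gives `k ≠ l` with `inb k (p f)`,
`inb l (m f')`; `k ≠ p f` (else `m f'` would be at or beyond `pv f = vt k = vt l`), so `inb k (m f)` (`inb_m_of_p`) and both are `SS k l`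
(`m f' = p f` etc. are impossible, leaves).  `Anc (pv f) (pv f')` is symmetric.
`i = p f`, `j = z k`: `B1 = SS (p f) (z k) - SS (m f) (z k)`: if `bey (pv f) (z k)`: `rel` for `e = inr k`; otherwise as before by
`Ax.meet (p f) (z k)`.   `i = z k`, `j = p f`: symmetric.

Values: by (2) `Ax.av_wq` applies with `F x = M.sum (fun ε m => (m : ℤ) * Gg x (loc ε))`:  `F x = F (t a) + c x M` as
`kk x y = Gg x y - Ao (some (t a)) y` and `Gg (t a) y = Ao (some (t a)) y`.  For `2 ≤ n` (`av_exw` with `X = []`):
`fin (st n) [] - δ r = (n-1) δ r`, `fin (st n) [x] - δ r = (n-2) δ r + δ (ed x)`, `loc r = none`: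
`av c (exw (st n) [] x y) = Gg y (tl x) - Gg x (tl y)`.  If `x` is `t` or `m`: `tl x = some x` and this is
`SS x y + Ao (some x) (tl y) - Ao (some x) (tl y) = SS x y`.
-/

set_option autoImplicit false

namespace GB

namespace PD

variable {W C Z : Type} {P : PD W C Z}

/-- linear extension to multisets of edges -/
private noncomputable def twoL (g : EE W C → ℤ) (M : EE W C →₀ ℕ) : ℤ :=
  M.sum fun ε m => (m : ℤ) * g ε

private theorem twoL_add (g : EE W C → ℤ) (M N : EE W C →₀ ℕ) :
    twoL g (M + N) = twoL g M + twoL g N := by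
  unfold twoL
  refine Finsupp.sum_add_index' (fun ε => by simp) (fun ε m m' => ?_)
  push_cast
  ring

private theorem twoL_single (g : EE W C → ℤ) (ε : EE W C) : twoL g (δ ε) = g ε := by
  unfold twoL δ
  rw [Finsupp.sum_single_index (by simp)]
  simp

private theorem twoL_smul (g : EE W C → ℤ) (k : ℕ) (ε : EE W C) (h : g ε = 0) :
    twoL g (k • δ ε) = 0 := by
  induction k with
  | zero => simp [twoL]
  | succ k ih => rw [add_smul, one_smul, twoL_add, ih, twoL_single, h, add_zero]

private theorem twoL_congr_add (g g' g'' : EE W C → ℤ) (h : ∀ ε, g ε = g' ε + g'' ε)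
    (M : EE W C →₀ ℕ) : twoL g M = twoL g' M + twoL g'' M := by
  unfold twoL Finsupp.sum
  rw [← Finset.sum_add_distrib]
  refine Finset.sum_congr rfl fun ε _ => ?_
  change (M ε : ℤ) * g ε = (M ε : ℤ) * g' ε + (M ε : ℤ) * g'' ε
  rw [h]
  ring

/-- extension of `SS` to options -/
private def twoS (SS : JJ W C Z → JJ W C Z → ℤ) : Option (JJ W C Z) → Option (JJ W C Z) → ℤ
  | some x, some y => SS x y
  | _, _ => 0

private noncomputable def twoA (P : PD W C Z) (SS : JJ W C Z → JJ W C Z → ℤ) :
    Option (JJ W C Z) → Option (JJ W C Z) → ℤ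
  | some y, some x => if P.pos x < P.pos y then SS x y else 0
  | _, _ => 0

private theorem twoS_anti {SS : JJ W C Z → JJ W C Z → ℤ} (hS : ∀ x y, SS y x = - SS x y)
    (x y : Option (JJ W C Z)) : twoS SS y x = - twoS SS x y := by
  cases x <;> cases y <;> simp [twoS]
  exact hS _ _

private theorem two_one (h : P.Ax) {SS : JJ W C Z → JJ W C Z → ℤ}
    (hS : ∀ x y, SS y x = - SS x y) (x y : Option (JJ W C Z)) :
    twoA P SS y x - twoA P SS x y = twoS SS x y := by
  rcases x with _ | x <;> rcases y with _ | y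
  · rfl
  · rfl
  · rfl
  · change (if P.pos x < P.pos y then SS x y else 0) - (if P.pos y < P.pos x then SS y x else 0) =
      SS x y
    rcases lt_trichotomy (P.pos x) (P.pos y) with h1 | h1 | h1
    · rw [if_pos h1, if_neg (by omega), sub_zero]
    · have h2 := h.a4 h1
      subst h2
      have h3 := hS x x
      rw [if_neg (by omega)]
      omega
    · rw [if_neg (by omega), if_pos h1, hS x y]
      ring

private theorem two_bey_self (h : P.Ax) {j : JJ W C Z} {a : W} (hj : P.vt j = some a) :
    P.inb (.t a) j := by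
  have := h.a1 j
  rw [hj] at this
  exact h.inb_t.2 (Or.inr this)

private theorem two_inb_vt (h : P.Ax) {a : W} {x : JJ W C Z} (hx : P.bey (some a) x) :
    P.inb (.t a) x := h.inb_t.2 (Or.inr hx)

/-- comparison of two vertices -/
private theorem two_cmp3 (h : P.Ax) {v w : Option W} (hvw : v ≠ w) :
    P.Anc v w ∨ P.Anc w v ∨ ∃ a b k l, v = some a ∧ w = some b ∧ P.vt k = P.vt l ∧ k ≠ l ∧
      P.inb k (.t a) ∧ P.inb l (.t b) := by
  have hn : ∀ u : Option W, u ≠ none → P.Anc none u := by
    intro u hu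
    have h1 := h.lo_none_le u
    have h2 : P.lo none ≠ P.lo u := fun h3 => hu (h.lo_inj h3).symm
    exact ⟨lt_of_le_of_ne h1 h2, h.hi_le_none u⟩
  rcases v with _ | a
  · exact Or.inl (hn w hvw.symm)
  · rcases w with _ | b
    · exact Or.inr (Or.inl (hn _ hvw))
    · have aux : ∀ a b : W, a ≠ b → P.inb (.t a) (.t b) → P.Anc (some a) (some b) := by
        intro a b hab h1
        rcases h.inb_t.1 h1 with h2 | h2
        · exact absurd (by injection h2 with h3; exact h3.symm) hab
        · have h3 := h.a3 _ _ h2.1 h2.2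
          have h4 := h.a2 b
          have h5 : P.vt (.t b) = P.par b := rfl
          rw [h5] at h3
          exact ⟨h2.1, by omega⟩
      have hab : a ≠ b := fun h1 => hvw (by rw [h1])
      rcases h.meet (.t a) (.t b) with h1 | h1 | ⟨k, l, h1, h2, h3, h4⟩
      · exact Or.inl (aux a b hab h1)
      · exact Or.inr (Or.inl (aux b a hab.symm h1))
      · exact Or.inr (Or.inr ⟨a, b, k, l, rfl, rfl, h1, h2, h3, h4⟩)

private theorem two_B2_anc (h : P.Ax) {SS : JJ W C Z → JJ W C Z → ℤ} (hS : P.Star SS)
    {i j : JJ W C Z} (ha : P.Anc (P.vt j) (P.vt i)) :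
    twoS SS (some i) (some j) - twoS SS (some i) (loc (be (P.vt j))) -
      twoS SS (loc (be (P.vt i))) (some j) + twoS SS (loc (be (P.vt i))) (loc (be (P.vt j))) = 0 := by
  have zero : ∀ x y, P.inb x y → SS y x = 0 := by
    intro x y hxy
    rw [hS.anti x y, hS.cmp x y hxy, neg_zero]
  obtain ⟨k, hk1, hk2, hk3⟩ := h.anc_branch ha
  rcases hi : P.vt i with _ | a
  · exfalso
    have h1 := ha.1
    rw [hi] at h1
    have := h.lo_none_le (P.vt j)
    omega
  · have hti := two_bey_self h hi
    have hbt : P.bey (P.vt j) (.t a) := by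
      have h1 := ha.1
      have h2 := ha.2
      rw [hi] at h1 h2
      have h3 := h.a0 (some a)
      have h4 : P.pos (.t a) = P.lo (some a) := rfl
      exact ⟨by omega, by omega⟩
    have hbi : P.bey (P.vt i) i := h.a1 i
    have hki : P.inb k i := hk3 i hbi
    obtain ⟨k', ⟨hk1', hk2'⟩, -⟩ := h.part hbt
    have hkk : k' = k := (h.part (ha.bey hbi)).unique ⟨hk1', h.inb_trans hk2' hti⟩ ⟨hk1, hki⟩
    rw [hkk] at hk2'
    have e1 : SS i j = SS (.t a) j := by
      by_cases hkj : k = j
      · subst hkj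
        rw [zero k i hki, zero k _ hk2']
      · rw [hS.br k j i j hk1 hkj hki (h.inb_self j), hS.br k j _ j hk1 hkj hk2' (h.inb_self j)]
    change SS i j - twoS SS (some i) (loc (be (P.vt j))) - SS (.t a) j +
      twoS SS (some (.t a)) (loc (be (P.vt j))) = 0
    rcases hj : P.vt j with _ | b
    · change SS i j - 0 - SS (.t a) j + 0 = 0
      rw [e1]
      ring
    · rw [hj] at hbt ha
      have e2 : SS i (.t b) = 0 := zero _ _ (two_inb_vt h (ha.bey hbi))
      have e3 : SS (.t a) (.t b) = 0 := zero _ _ (two_inb_vt h hbt)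
      change SS i j - SS i (.t b) - SS (.t a) j + SS (.t a) (.t b) = 0
      rw [e1, e2, e3]
      ring

private theorem two_B2 (h : P.Ax) {SS : JJ W C Z → JJ W C Z → ℤ} (hS : P.Star SS)
    {i j : JJ W C Z} (hij : P.vt i ≠ P.vt j) :
    twoS SS (some i) (some j) - twoS SS (some i) (loc (be (P.vt j))) -
      twoS SS (loc (be (P.vt i))) (some j) + twoS SS (loc (be (P.vt i))) (loc (be (P.vt j))) = 0 := by
  rcases two_cmp3 h hij with ha | ha | ⟨a, b, k, l, h1, h2, h3, h4, h5, h6⟩
  · have e := two_B2_anc h hS ha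
    rw [twoS_anti hS.anti (some i) (some j), twoS_anti hS.anti (loc (be (P.vt i))) (some j),
      twoS_anti hS.anti (some i) (loc (be (P.vt j))),
      twoS_anti hS.anti (loc (be (P.vt i))) (loc (be (P.vt j)))] at e
    omega
  · exact two_B2_anc h hS ha
  · have hi := h.inb_trans h5 (two_bey_self h h1)
    have hj := h.inb_trans h6 (two_bey_self h h2)
    rw [h1, h2]
    change SS i j - SS i (.t b) - SS (.t a) j + SS (.t a) (.t b) = 0
    rw [hS.br k l i j h3 h4 hi hj, hS.br k l i _ h3 h4 hi h6, hS.br k l _ j h3 h4 h5 hj,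
      hS.br k l _ _ h3 h4 h5 h6]
    ring

/-- the two ends of a chord look the same from a chord which goes below -/
private theorem two_E (h : P.Ax) {SS : JJ W C Z → JJ W C Z → ℤ} (hS : P.Star SS) (f : C)
    (e : Ch C Z) (hb : P.belowP (P.pv f) e) : SS (.p f) (mi e) = SS (.m f) (mi e) := by
  by_cases hbe : P.bey (P.pv f) (mi e)
  · have h1 := hS.rel e f hbe hb
    rw [hS.anti (mi e) (.p f), hS.anti (mi e) (.m f), h1]
  · rcases h.meet (.p f) (mi e) with h1 | h1 | ⟨k, l, h1, h2, h3, h4⟩
    · exfalso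
      have h2 := (h.inb_leaf (by simp)).1 h1
      cases e <;> cases h2
    · exfalso
      have hl : ∀ a, (mi e : JJ W C Z) ≠ .t a := by
        intro a
        cases e <;> simp [mi]
      have h2 := (h.inb_leaf hl).1 h1
      cases e <;> cases h2
    · have hk : k ≠ .p f := by
        rintro rfl
        have h5 := h.inb_bey h4
        rw [← h1] at h5
        exact hbe h5
      have h5 := h.inb_m_of_p h3 hk
      rw [hS.br k l _ _ h1 h2 h3 h4, hS.br k l _ _ h1 h2 h5 h4]

private theorem two_B1_anc (h : P.Ax) {SS : JJ W C Z → JJ W C Z → ℤ} (hS : P.Star SS)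
    {f f' : C} (ha : P.Anc (P.pv f') (P.pv f)) :
    SS (.m f) (.m f') - SS (.p f) (.m f') - SS (.m f) (.p f') + SS (.p f) (.p f') = 0 := by
  have e1 : SS (.p f) (.m f') = SS (.m f) (.m f') :=
    two_E h hS f (.inl f') (h.below_of_anc ha)
  obtain ⟨k, hk1, hk2, hk3⟩ := h.anc_branch ha
  have h1 : P.inb k (.p f) := hk3 _ (h.a1 (.p f))
  have h2 : P.inb k (.m f) := hk3 _ (h.bey_m f)
  have h3 : P.vt k = P.vt (.p f') := hk1
  have h4 : k ≠ .p f' := hk2 f'
  have e2 : SS (.p f) (.p f') = SS (.m f) (.p f') := by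
    rw [hS.br k _ _ _ h3 h4 h1 (h.inb_self _), hS.br k _ _ _ h3 h4 h2 (h.inb_self _)]
  rw [e1, e2]
  ring

private theorem two_B1_pp (h : P.Ax) {SS : JJ W C Z → JJ W C Z → ℤ} (hS : P.Star SS)
    {f f' : C} (hij : P.pv f ≠ P.pv f') :
    SS (.m f) (.m f') - SS (.p f) (.m f') - SS (.m f) (.p f') + SS (.p f) (.p f') = 0 := by
  rcases two_cmp3 h hij with ha | ha | ⟨a, b, k, l, h1, h2, h3, h4, h5, h6⟩
  · have e := two_B1_anc h hS ha
    rw [hS.anti (.m f) (.m f'), hS.anti (.m f) (.p f'), hS.anti (.p f) (.m f'),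
      hS.anti (.p f) (.p f')] at e
    omega
  · exact two_B1_anc h hS ha
  · have g1 : P.inb k (.p f) := h.inb_trans h5 (two_inb_vt h (by
      have := h.a1 (.p f)
      have h7 : P.vt (.p f) = some a := h1
      rw [h7] at this
      exact this))
    have g2 : P.inb k (.m f) := h.inb_trans h5 (two_inb_vt h (by
      have := h.bey_m f
      rw [h1] at this
      exact this))
    have g3 : P.inb l (.p f') := h.inb_trans h6 (two_inb_vt h (by
      have := h.a1 (.p f')
      have h7 : P.vt (.p f') = some b := h2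
      rw [h7] at this
      exact this))
    have g4 : P.inb l (.m f') := h.inb_trans h6 (two_inb_vt h (by
      have := h.bey_m f'
      rw [h2] at this
      exact this))
    rw [hS.br k l _ _ h3 h4 g2 g4, hS.br k l _ _ h3 h4 g1 g4, hS.br k l _ _ h3 h4 g2 g3,
      hS.br k l _ _ h3 h4 g1 g3]
    ring

private theorem two_B1 (h : P.Ax) {SS : JJ W C Z → JJ W C Z → ℤ} (hS : P.Star SS)
    {i j : JJ W C Z} (hij : P.vt i ≠ P.vt j) :
    twoS SS (loc (ed i)) (loc (ed j)) - twoS SS (some i) (loc (ed j)) -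
      twoS SS (loc (ed i)) (some j) + twoS SS (some i) (some j) = 0 := by
  have hi : ∀ i : JJ W C Z, (loc (ed i) : Option (JJ W C Z)) = some i →
      twoS SS (loc (ed i)) (loc (ed j)) - twoS SS (some i) (loc (ed j)) -
      twoS SS (loc (ed i)) (some j) + twoS SS (some i) (some j) = 0 := by
    intro i hi
    rw [hi]
    ring
  have hj : ∀ j : JJ W C Z, (loc (ed j) : Option (JJ W C Z)) = some j →
      twoS SS (loc (ed i)) (loc (ed j)) - twoS SS (some i) (loc (ed j)) -
      twoS SS (loc (ed i)) (some j) + twoS SS (some i) (some j) = 0 := by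
    intro j hj
    rw [hj]
    ring
  have hbz : ∀ (f : C) (k : Z), SS (.p f) (.z k) = SS (.m f) (.z k) := by
    intro f k
    refine two_E h hS f (.inr k) ?_
    intro x hx
    cases hx
  cases i with
  | t a => exact hi _ rfl
  | m c => exact hi _ rfl
  | p f =>
    cases j with
    | t a => exact hj _ rfl
    | m c => exact hj _ rfl
    | p f' => exact two_B1_pp h hS hij
    | z k =>
      change (0 : ℤ) - 0 - SS (.m f) (.z k) + SS (.p f) (.z k) = 0
      rw [hbz]
      ring
  | z k =>
    cases j with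
    | t a => exact hj _ rfl
    | m c => exact hj _ rfl
    | p f =>
      change (0 : ℤ) - SS (.z k) (.m f) - 0 + SS (.z k) (.p f) = 0
      rw [hS.anti (.m f) (.z k), hS.anti (.p f) (.z k), hbz]
      ring
    | z k' =>
      exfalso
      apply hij
      rw [h.zz k k']

theorem Ax.two (h : P.Ax) {SS : JJ W C Z → JJ W C Z → ℤ} (hS : P.Star SS) :
    ∃ c : JJ W C Z → (EE W C →₀ ℕ) → ℤ, P.Coc c ∧ ∀ n x y, 2 ≤ n → NP x → (∀ k, x ≠ .z k) →
      av c (P.exw (st n) [] x y) = SS x y := by
  have h1 := two_one h hS.anti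
  have anti := twoS_anti hS.anti
  let Gg : JJ W C Z → Option (JJ W C Z) → ℤ := fun j x =>
    twoS SS x (some j) + twoA P SS x (loc (ed j))
  let kk : JJ W C Z → Option (JJ W C Z) → ℤ := fun j x =>
    Gg j x - twoA P SS (loc (be (P.vt j))) x
  have h2 : ∀ j x, (loc (ed j) : Option (JJ W C Z)) = some j →
      Gg j x = twoA P SS (some j) x := by
    intro j x hj
    change twoS SS x (some j) + twoA P SS x (loc (ed j)) = _
    rw [hj, ← h1 x (some j)]
    ring
  have h3 : ∀ j x, kk j x = twoS SS x (some j) - twoS SS x (loc (be (P.vt j))) +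
      twoA P SS x (loc (ed j)) - twoA P SS x (loc (be (P.vt j))) := by
    intro j x
    change twoS SS x (some j) + twoA P SS x (loc (ed j)) - twoA P SS (loc (be (P.vt j))) x = _
    have := h1 x (loc (be (P.vt j)))
    omega
  refine ⟨fun j M => twoL (fun ε => kk j (loc ε)) M, ?_, ?_⟩
  · intro i j M hij
    change twoL _ _ + twoL _ _ = twoL _ _ + twoL _ _
    rw [twoL_add, twoL_add, twoL_add, twoL_add, twoL_single, twoL_single, twoL_single,
      twoL_single, h3, h3, h3, h3]
    have b1 := two_B1 h hS hij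
    have b2 := two_B2 h hS hij
    have c1 := h1 (loc (ed i)) (loc (ed j))
    have c2 := h1 (loc (be (P.vt i))) (loc (ed j))
    have c3 := h1 (loc (ed i)) (loc (be (P.vt j)))
    have c4 := h1 (loc (be (P.vt i))) (loc (be (P.vt j)))
    have d1 := anti (some i) (loc (ed j))
    have d2 := anti (loc (be (P.vt i))) (loc (ed j))
    have d3 := anti (some i) (loc (be (P.vt j)))
    have d4 := anti (loc (be (P.vt i))) (loc (be (P.vt j)))
    omega
  · intro n x y hn hx hxz
    have hwq : ∀ (M : EE W C →₀ ℕ) (x : JJ W C Z),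
        av (fun j M => twoL (fun ε => kk j (loc ε)) M) (P.wq x M) =
          twoL (fun ε => Gg x (loc ε)) M := by
      intro M x
      refine h.av_wq _ M (fun x => twoL (fun ε => Gg x (loc ε)) M) ?_ ?_ x
      · intro x hx
        congr 1
        funext ε
        change _ = Gg x (loc ε) - twoA P SS (loc (be (P.vt x))) (loc ε)
        rw [hx]
        change _ = _ - (0 : ℤ)
        rw [sub_zero]
      · intro x a hx
        refine twoL_congr_add _ _ _ (fun ε => ?_) M
        change _ = _ + (Gg x (loc ε) - twoA P SS (loc (be (P.vt x))) (loc ε))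
        rw [h2 (.t a) _ rfl, hx]
        change _ = _ + (_ - twoA P SS (some (.t a)) (loc ε))
        ring
    have hG0 : ∀ x : JJ W C Z, Gg x (loc (EE.r : EE W C)) = 0 := by
      intro x
      change (0 : ℤ) + 0 = 0
      rfl
    have hs1 : (st n : EE W C →₀ ℕ) - δ EE.r = (n - 1) • δ EE.r := by
      obtain ⟨k, rfl⟩ : ∃ k, n = k + 1 := ⟨n - 1, by omega⟩
      unfold st
      rw [add_smul, one_smul, add_tsub_cancel_right]
      rfl
    have hs2 : ∀ ε : EE W C, (st n : EE W C →₀ ℕ) - δ EE.r + δ ε - δ EE.r =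
        (n - 2) • δ EE.r + δ ε := by
      intro ε
      rw [hs1]
      obtain ⟨k, rfl⟩ : ∃ k, n = k + 2 := ⟨n - 2, by omega⟩
      have e1 : k + 2 - 1 = k + 1 := by omega
      have e2 : k + 2 - 2 = k := by omega
      rw [e1, e2, add_smul, one_smul, add_right_comm, add_tsub_cancel_right]
    rw [av_exw]
    have f1 : ∀ x : JJ W C Z, fin (st n) ([] ++ [x]) = (st n : EE W C →₀ ℕ) - δ EE.r + δ (ed x) :=
      fun x => rfl
    have f2 : fin (st n) ([] : List (JJ W C Z)) = (st n : EE W C →₀ ℕ) := rfl
    rw [f1, f1, f2, hwq, hwq, hwq, hwq, hs2, hs2, hs1, twoL_add, twoL_add, twoL_smul _ _ _ (hG0 x),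
      twoL_smul _ _ _ (hG0 y), twoL_smul _ _ _ (hG0 x), twoL_smul _ _ _ (hG0 y), twoL_single,
      twoL_single]
    have hxl : (loc (ed x) : Option (JJ W C Z)) = some x := by
      cases x with
      | t a => rfl
      | m c => rfl
      | p c => exact absurd rfl (hx c)
      | z k => exact absurd rfl (hxz k)
    rw [h2 x _ hxl]
    change 0 + (0 + (twoS SS (loc (ed x)) (some y) + twoA P SS (loc (ed x)) (loc (ed y)))) -
      (0 + (0 + twoA P SS (some x) (loc (ed y)))) = SS x y
    rw [hxl]
    change 0 + (0 + (SS x y + _)) - _ = SS x y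
    ring

end PD

end GB
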