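import Pool.Agent.Helper95.GB.IN.Star
import Pool.Agent.Helper95.GB.IN.Two

/-! # GB/IN/Gamma: the characters of the Theta type generators (stub, prove in place)

General: let `Dat va β`, `SS` by `star_of`, `c` by `two`.
(b) for `BI n f`: `tw n (.b f _) = exw (st n) [] (m f) (p f)` has the value `SS (m f) (p f) = SS k (p f) = va f` where `k` is the low branch of
`m f` at `pv f` (`Star.br` with `i = k`, `j = p f`, `k ≠ p f`).
(q) for `QI n i j`: `tw n (.q i j _) = exw (st n) [] i j` has the value `SS i j = β i j`: if `i` is not a `z` by `two` (`NP i`).  If `i = z k`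
then `j` is not a `z` (`zz`, `i ≠ j`) and `av c (exw i j) = - av c (exw j i)` (`av_exw`) `= - SS j i = SS i j`.
`gamma_b`: `va f = if EqvGen Dir f0 f then 1 else 0`, `β i j = if ∃ e f, Wit i j e f ∧ EqvGen Dir f0 f then 1 else 0`.  `Dat`: let
`Wit i j e f`.  If `EqvGen Dir f0 f` then `β i j = 1`.  Otherwise suppose there is `Wit i j e' f'` with `EqvGen Dir f0 f'`: then `Dir f' f`
by `(i, j, e)` if `hgt e ≤ hgt e'` and by `(i, j, e')` otherwise, so `EqvGen Dir f0 f`, contradiction.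
Values: on `.b f _` it is `va f`, which is `1` for `f = f0` and `0` otherwise (`kept_unique`); on `.q i j _` it is `β i j = 0`, as `QI`
excludes witnesses.
`gamma_q`: `va = 0`, `β i j = if i = i0 ∧ j = j0 then 1 else 0`.  `Dat`: a witness for `i0`, `j0` contradicts `QI n i0 j0`.
Values: `0` on `.b`, and `β i j` on `.q i j _`.
-/

set_option autoImplicit false

namespace GB

namespace PD

variable {W C Z : Type} {P : PD W C Z}

private theorem ga_b (h : P.Ax) {va : C → ℤ} {SS : JJ W C Z → JJ W C Z → ℤ} (hS : P.Star SS)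
    (h1 : ∀ i f, P.vt i = P.pv f → P.inb i (.m f) → P.low (P.vt i) i → SS i (.p f) = va f)
    {c : JJ W C Z → (EE W C →₀ ℕ) → ℤ}
    (hc : ∀ n x y, 2 ≤ n → NP x → (∀ k, x ≠ .z k) → av c (P.exw (st n) [] x y) = SS x y)
    {n : ℕ} {f : C} (hf : P.BI n f) : av c (P.tw n (.b f hf)) = va f := by
  obtain ⟨hn, ⟨j, hj1, hj2, hj3⟩, -⟩ := id hf
  have e1 : av c (P.tw n (.b f hf)) = SS (.m f) (.p f) :=
    hc n (.m f) (.p f) hn (fun c hc => by cases hc) (fun k hk => by cases hk)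
  have hj4 : j ≠ .p f := by
    rintro rfl
    have := (h.inb_leaf (k := .p f) (x := .m f) (fun a ha => by cases ha)).1 hj2
    cases this
  have hj5 : P.vt j = P.vt (.p f) := hj1
  rw [e1, hS.br j (.p f) (.m f) (.p f) hj5 hj4 hj2 (h.inb_self _)]
  refine h1 j f hj1 hj2 ?_
  rw [hj1]
  exact hj3

private theorem ga_q (h : P.Ax) {β : JJ W C Z → JJ W C Z → ℤ} {SS : JJ W C Z → JJ W C Z → ℤ}
    (hS : P.Star SS)
    (h2 : ∀ i j, P.vt i = P.vt j → P.pos i < P.pos j → NP i → NP j → P.low (P.vt i) i →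
        P.low (P.vt i) j → SS i j = β i j)
    {c : JJ W C Z → (EE W C →₀ ℕ) → ℤ}
    (hc : ∀ n x y, 2 ≤ n → NP x → (∀ k, x ≠ .z k) → av c (P.exw (st n) [] x y) = SS x y)
    {n : ℕ} {i j : JJ W C Z} (hq : P.QI n i j) : av c (P.tw n (.q i j hq)) = β i j := by
  obtain ⟨hn, hv, hp, hi, hj, li, lj, -⟩ := id hq
  rw [← h2 i j hv hp hi hj li lj]
  have e0 : P.tw n (.q i j hq) = P.exw (st n) [] i j := rfl
  rw [e0]
  by_cases hz : ∀ k, i ≠ .z k
  · exact hc n i j hn hi hz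
  · push Not at hz
    obtain ⟨k, hk⟩ := hz
    have hjz : ∀ k, j ≠ .z k := by
      intro k' hk'
      have hkk := h.zz k k'
      rw [hk, hk', hkk] at hp
      exact lt_irrefl _ hp
    have e1 := hc n j i hn hj hjz
    rw [av_exw] at e1 ⊢
    rw [hS.anti j i]
    linarith

theorem Ax.gamma_b (h : P.Ax) {n : ℕ} {f0 : C} (h0 : P.BI n f0) :
    ∃ c : JJ W C Z → (EE W C →₀ ℕ) → ℤ, P.Coc c ∧ av c (P.tw n (.b f0 h0)) = 1 ∧
      (∀ f hf, av c (P.tw n (.b f hf)) ≠ 0 → f = f0) ∧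
      (∀ i j hq, av c (P.tw n (.q i j hq)) = 0) := by
  classical
  have hD : P.Dat (fun f => if Relation.EqvGen P.Dir f0 f then 1 else 0)
      (fun i j => if ∃ e f, P.Wit i j e f ∧ Relation.EqvGen P.Dir f0 f then 1 else 0) := by
    intro i j e f hw
    by_cases hf : Relation.EqvGen P.Dir f0 f
    · have h1 : ∃ e f, P.Wit i j e f ∧ Relation.EqvGen P.Dir f0 f := ⟨e, f, hw, hf⟩
      simp only [h1, hf, if_true]
    · have h1 : ¬ ∃ e f, P.Wit i j e f ∧ Relation.EqvGen P.Dir f0 f := by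
        rintro ⟨e', f', hw', hf'⟩
        refine hf (hf'.trans _ _ _ (Relation.EqvGen.rel _ _ ?_))
        obtain ⟨a1, a2, a3, a4, a5, a6, a7⟩ := hw
        obtain ⟨-, -, b3, b4, b5, b6, b7⟩ := hw'
        by_cases hh : P.hgt e ≤ P.hgt e'
        · exact ⟨i, j, e, a1, a2, a3, b4, a4, a5, b6, a6, lt_of_le_of_lt hh b7, a7⟩
        · exact ⟨i, j, e', a1, a2, b3, b4, a4, b5, b6, a6, b7, lt_trans (not_le.1 hh) a7⟩
      simp only [h1, hf, if_false]
  obtain ⟨SS, hS, h1, h2⟩ := h.star_of _ _ hD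
  obtain ⟨c, hc, hc'⟩ := h.two hS
  refine ⟨c, hc, ?_, fun f hf => ?_, fun i j hq => ?_⟩
  · rw [ga_b h hS h1 hc' h0, if_pos (Relation.EqvGen.refl _)]
  · rw [ga_b h hS h1 hc' hf]
    intro hne
    by_cases he : Relation.EqvGen P.Dir f0 f
    · exact h.kept_unique hf h0 he
    · exact absurd (if_neg he) hne
  · rw [ga_q h hS h2 hc' hq, if_neg]
    rintro ⟨e, f, hw, -⟩
    obtain ⟨a1, a2, a3, a4, a5, a6, a7⟩ := hw
    exact hq.2.2.2.2.2.2.2 e (.inl f) a3 a4 a5 a6 a7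

theorem Ax.gamma_q (h : P.Ax) {n : ℕ} {i0 j0 : JJ W C Z} (h0 : P.QI n i0 j0) :
    ∃ c : JJ W C Z → (EE W C →₀ ℕ) → ℤ, P.Coc c ∧ av c (P.tw n (.q i0 j0 h0)) = 1 ∧
      (∀ f hf, av c (P.tw n (.b f hf)) = 0) ∧
      (∀ i j hq, av c (P.tw n (.q i j hq)) ≠ 0 → i = i0 ∧ j = j0) := by
  classical
  have hD : P.Dat (fun _ => 0) (fun i j => if i = i0 ∧ j = j0 then 1 else 0) := by
    intro i j e f hw
    refine if_neg ?_
    rintro ⟨rfl, rfl⟩
    obtain ⟨a1, a2, a3, a4, a5, a6, a7⟩ := hw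
    exact h0.2.2.2.2.2.2.2 e (.inl f) a3 a4 a5 a6 a7
  obtain ⟨SS, hS, h1, h2⟩ := h.star_of _ _ hD
  obtain ⟨c, hc, hc'⟩ := h.two hS
  refine ⟨c, hc, ?_, fun f hf => ?_, fun i j hq => ?_⟩
  · rw [ga_q h hS h2 hc' h0, if_pos ⟨rfl, rfl⟩]
  · rw [ga_b h hS h1 hc' hf]
  · rw [ga_q h hS h2 hc' hq]
    intro hne
    by_contra hh
    exact hne (if_neg hh)

end PD

end GB
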