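import Pool.Agent.Helper95.GB.IN.Tri
import Pool.Agent.Helper95.GB.IN.Alpha
import Pool.Agent.Helper95.GB.IN.Beta
import Pool.Agent.Helper95.GB.IN.Gamma
import Pool.Agent.Helper95.GB.CL.C6
import Pool.Agent.Helper95.GB.GT.Final
import Pool.Agent.Helper95.GB.AS.Final
import Pool.Agent.Helper95.GB.TH.Main
import Pool.Agent.Helper95.GB.PL.Main
import Pool.Agent.Helper95.GB.PL.Misc

/-! # GB/IN/Final: independence and the core theorem (stub, prove in place)

`ind`: `ind_of_tri` with `lev n`.  For each `τ` take a cocycle `c` and its character (`char`), whose value on `T τ'` is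
`av c (tw n τ')` (`tw_closed`).  `τ = .e e`: `alpha`.  `τ = .k X i h' hk`: `cK (vt i) (X + {i}) h'`, `cK_coc` (`vt h' = vt i`), `beta_diag`,
`beta_K`, `beta_B`, `beta_Q`; `lev (.e _) = 0 < lev (.k ..)`.  `τ = .b ..`, `.q ..`: `gamma_b`, `gamma_q`; the levels of `.e` and `.k` are
smaller than `2 n + 3` (`2 (n - card) + 1 + 1 < 2 n + 3`).

`core`: `genus1_criterion P.dg hPI (st n) D (fun τ => val D.g (tw n τ)) (h.generates n D) (ind ..)`, `hPI` by `DG.PI_of`
(`Ax.qdata`, `Ax.conn`, `Ax.plprop`, `DG.th_of` with `Ax.twoEnds`).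
-/

set_option autoImplicit false

namespace GB

private theorem Final_lev {W C Z : Type} {P : PD W C Z} (n : ℕ) (X : Multiset (JJ W C Z))
    (i h' : JJ W C Z) (hk : P.KI n X i h') :
    0 < P.lev n (.k X i h' hk) ∧ P.lev n (.k X i h' hk) < 2 * n + 3 := by
  classical
  unfold PD.lev
  simp only
  split_ifs <;> omega

private theorem Final_sep {W C Z : Type} {P : PD W C Z} (h : P.Ax) {n : ℕ} (τ : P.TI n) :
    ∃ c : JJ W C Z → (EE W C →₀ ℕ) → ℤ, P.Coc c ∧ PD.av c (P.tw n τ) ≠ 0 ∧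
      ∀ τ' : P.TI n, PD.av c (P.tw n τ') ≠ 0 → τ' = τ ∨ P.lev n τ' < P.lev n τ := by
  cases τ with
  | e e =>
    obtain ⟨c, h1, h2, h3⟩ := h.alpha n e
    exact ⟨c, h1, by rw [h2]; exact one_ne_zero, fun τ' h4 => Or.inl (h3 τ' h4)⟩
  | k X i h' hk =>
    refine ⟨P.cK (P.vt i) (X + {i}) h', h.cK_coc _ _ _ hk.2.2.1, ?_, fun τ' h4 => ?_⟩
    · rw [h.beta_diag hk]
      exact one_ne_zero
    · cases τ' with
      | e e' => exact Or.inr (Final_lev n X i h' hk).1
      | k X' i' h'' hk' => exact h.beta_K hk hk' h4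
      | b f hb => exact absurd (h.beta_B hk hb) h4
      | q i' j' hq => exact absurd (h.beta_Q hk hq) h4
  | b f hb =>
    obtain ⟨c, h1, h2, h3, h5⟩ := h.gamma_b hb
    refine ⟨c, h1, by rw [h2]; exact one_ne_zero, fun τ' h4 => ?_⟩
    cases τ' with
    | e e' => exact Or.inr (Nat.succ_pos _)
    | k X' i' h'' hk' => exact Or.inr (Final_lev n X' i' h'' hk').2
    | b f' hb' =>
      have h6 := h3 f' hb' h4
      subst h6
      exact Or.inl rfl
    | q i' j' hq => exact absurd (h5 i' j' hq) h4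
  | q i j hq =>
    obtain ⟨c, h1, h2, h3, h5⟩ := h.gamma_q hq
    refine ⟨c, h1, by rw [h2]; exact one_ne_zero, fun τ' h4 => ?_⟩
    cases τ' with
    | e e' => exact Or.inr (Nat.succ_pos _)
    | k X' i' h'' hk' => exact Or.inr (Final_lev n X' i' h'' hk').2
    | b f' hb' => exact absurd (h3 f' hb') h4
    | q i' j' hq' =>
      obtain ⟨rfl, rfl⟩ := h5 i' j' hq' h4
      exact Or.inl rfl

theorem PD.Ax.ind {W C Z : Type} {P : PD W C Z} (h : P.Ax) {G : Type} [Group G] {n : ℕ}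
    (hn : 1 ≤ n) (D : PiD P.dg.cx (PD.st n) G) :
    Ind (fun τ : P.TI n => P.dg.cx.val D.g (P.tw n τ)) := by
  refine ind_of_tri _ (P.lev n) fun τ => ?_
  obtain ⟨c, h1, h2, h3⟩ := Final_sep h τ
  obtain ⟨φ, hφ⟩ := PD.char D c h1
  have h4 : ∀ τ' : P.TI n, Multiplicative.toAdd (φ (P.dg.cx.val D.g (P.tw n τ'))) =
      PD.av c (P.tw n τ') := fun τ' => hφ _ (h.tw_closed hn τ')
  refine ⟨φ, ?_, fun τ' h5 => ?_⟩
  · rw [h4]
    exact h2
  · rw [h4] at h5
    exact h3 τ' h5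

theorem PD.Ax.core {W C Z : Type} [Fintype W] [Fintype C] [Fintype Z] {P : PD W C Z} (h : P.Ax)
    (hθ : ¬ P.dg.HasTheta4) {G : Type} [Group G] {n : ℕ} (hn : 1 ≤ n)
    (D : PiD P.dg.cx (PD.st n) G) : Genus1 G := by
  obtain ⟨q, hq⟩ := h.qdata
  exact genus1_criterion P.dg
    (DG.PI_of P.dg .r q hq h.conn h.plprop (DG.th_of P.dg h.conn h.twoEnds hθ)) (PD.st n) D
    (fun τ : P.TI n => P.dg.cx.val D.g (P.tw n τ)) (h.generates n D) (h.ind hn D)

end GB
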