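import Pool.Agent.Helper95.GB.CL.Geo
import Pool.Agent.Helper95.GB.IN.Defs

/-! # GB/IN/NC: noncrossing chords (stub, prove in place)

* `pp_ge`: `m c` beyond `v`, `p c` not: `pp c > pm c > lo v` (`a5`), so `hi v ≤ pp c`.
* `pp_lt`: `Anc (pv c') (pv c)`, `bey (pv c) (m c')`: let `k` be the branch at `pv c'` containing everything beyond `pv c`
(`anc_branch`): `inb k (p c)` (`bey_of_le`), `inb k (m c')`; `k ≠ p c'` (`NP`), and `pos k < pos (p c')`: otherwise `sep` gives
`pp c' < pm c'`, contradiction to `a5`.  `sep`: `pp c < pp c'`.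
* `nc`: let `e` in the left branch `i`, `f` in the right branch `j` at `w`, both below `w`: `hgt e ≤ hgt f`.
`pos (mi e) < pos (mi f)` by `sep`.  If `e = inr k`: `hgt e = 0`.  Let `e = inl c`: `pm c < pos (mi f) < hi w ≤ pp c` (`pp_ge`).  If
`f = inr k`: contradiction to `a7`.  If `f = inl c'`: `pm c < pm c' < pp c`, so `pp c' < pp c` (`a6`).  Both `pv c`, `pv c'` are strict
ancestors of `w` (`anc_of_below`).  If `lo (pv c') < lo (pv c)` then `Anc (pv c') (pv c)` (`anc_anc`), `bey (pv c) (m c')` (`Anc.bey`),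
and `pp_lt` gives `pp c < pp c'`, contradiction.
* `Dir.symm`: clear.
* `Dir_short1`: `Dir f f'` by `i, j, e` at `w = vt i`, `Dir f' f''` by `i2, j2, e2` at `w2 = vt i2`, `pm f'' < pm f'`, and `w = w2` or
`Anc w w2`.  Then `Dir f f''`.
If `w = w2`: `j = j2` (`Ax.part`, both contain `m f'`).  If `hgt e ≤ hgt e2` use `(i, j, e)`, otherwise `(i2, j, e2)`.
If `Anc w w2`: everything beyond `w2` is in one branch at `w` (`anc_branch`), which is `j` because of `m f'`.  So `m f''` and `mi e2` are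
in `j`.  `pm f' < hi w2 ≤ pp f''` (`pp_ge` for `f''`, `w2`), so `pm f'' < pm f' < pp f''` and `pp f' < pp f''` (`a6`); `hi w ≤ pp f'` (`pp_ge`), so
`hi w ≤ pp f''` and `f''` is below `w`.  `nc` for `e` in `i`, `e2` in `j` (`e2` is below `w`: `hgt e2 < hgt f'`: if `e2 = inl c2`, `pv c2` and
`pv f'` are ancestors of `w2`, `lo (pv c2) < lo (pv f') < lo w`, so `p c2` is not beyond `w`): `hgt e ≤ hgt e2 < hgt f''`.  So
`(i, j, e)` shows `Dir f f''`.
* `Dir_short`: if `Dir f f'`, `Dir f' f''`, `pm f < pm f'`, `pm f'' < pm f'` then `Dir f f''`.  `m f'` is beyond `w` and `w2`, so `w = w2`,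
`Anc w w2` or `Anc w2 w` (`bey_comp`, `lo_inj`); in the last case use `Dir_short1` for `Dir f'' f'`, `Dir f' f`.
* `kept_unique`: let `r a b` be `Dir a b ∧ pm b < pm a`.  `Relation.church_rosser`: `r a b`, `r a c` give `Dir b c` by `Dir_short`
(`Dir.symm`), and `b = c`, `r b c` or `r c b` by `lt_trichotomy` (`pm` is injective by `a4`); so any two elements related by
`EqvGen r` (or `EqvGen Dir`: `Dir a b` implies `r a b`, `r b a` or `a = b`) are joined: `Relation.Join (ReflTransGen r)`.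
`f` and `f0` have no `r`-successor (`BI`), so they are equal (`Relation.ReflTransGen.cases_head`).
-/

set_option autoImplicit false

namespace GB

namespace PD

variable {W C Z : Type} {P : PD W C Z}

theorem Ax.pp_ge (h : P.Ax) {v : Option W} {c : C} (hm : P.bey v (.m c))
    (hp : ¬ P.bey v (.p c)) : P.hi v ≤ P.pp c := by
  by_contra hc
  have h5 := (h.a5 c).2.2
  have h1 : P.lo v < P.pm c := hm.1
  exact hp ⟨(lt_trans h1 h5 : P.lo v < P.pp c), (not_le.mp hc : P.pp c < P.hi v)⟩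

theorem Ax.pp_lt (h : P.Ax) {c c' : C} (ha : P.Anc (P.pv c') (P.pv c))
    (hm : P.bey (P.pv c) (.m c')) : P.pp c < P.pp c' := by
  obtain ⟨k, hk1, hk2, hk3⟩ := h.anc_branch ha
  have h1 : P.inb k (.p c) := hk3 _ (h.inb_bey (h.inb_self (.p c)))
  have h2 : P.inb k (.m c') := hk3 _ hm
  have hv : P.vt k = P.vt (.p c' : JJ W C Z) := hk1
  rcases lt_trichotomy (P.pos k) (P.pos (.p c')) with h3 | h3 | h3
  · exact h.sep hv h3 h1 (h.inb_self (.p c'))
  · exact absurd (h.a4 h3) (hk2 c')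
  · have h4 : P.pp c' < P.pm c' := h.sep hv.symm h3 (h.inb_self (.p c')) h2
    exact absurd h4 (not_lt.mpr (h.a5 c').2.2.le)

theorem Ax.nc (h : P.Ax) {i j : JJ W C Z} {e f : Ch C Z} (hv : P.vt i = P.vt j)
    (hp : P.pos i < P.pos j) (he : P.inb i (mi e)) (hf : P.inb j (mi f))
    (be : P.belowP (P.vt i) e) (bf : P.belowP (P.vt i) f) : P.hgt e ≤ P.hgt f := by
  have hs := h.sep hv hp he hf
  cases e with
  | inr k => exact Nat.zero_le _
  | inl c =>
    have hbc : P.bey (P.vt i) (.m c) := h.inb_bey he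
    have hge : P.hi (P.vt i) ≤ P.pp c := h.pp_ge hbc (be (.p c) rfl)
    have hbf := h.inb_bey hf
    rw [← hv] at hbf
    cases f with
    | inr k =>
      exfalso
      have h1 : P.pm c < P.pz k := hs
      have h2 : P.pz k < P.hi (P.vt i) := hbf.2
      exact h.a7 c k ⟨h1, lt_of_lt_of_le h2 hge⟩
    | inl c' =>
      have h1 : P.pm c < P.pm c' := hs
      have h2 : P.pm c' < P.hi (P.vt i) := hbf.2
      have h3 := h.a6 c c' h1 (lt_of_lt_of_le h2 hge)
      by_contra hc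
      have hc' : P.lo (P.pv c') < P.lo (P.pv c) := by
        have : P.lo (P.pv c') + 1 < P.lo (P.pv c) + 1 := not_le.mp hc
        omega
      have hbf' : P.bey (P.vt i) (.m c') := hbf
      have a1 := h.anc_of_below be hbc
      have a2 := h.anc_of_below bf hbf'
      have a3 := h.anc_anc a2 a1 hbf' hc'
      have h4 := h.pp_lt a3 (a1.bey hbf')
      omega

theorem Dir.symm {f f' : C} (hd : P.Dir f f') : P.Dir f' f := by
  obtain ⟨i, j, e, h1, h2, h3, h4, h5, h6, h7, h8, h9, h10⟩ := hd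
  exact ⟨i, j, e, h1, h2, h3, h5, h4, h6, h8, h7, h10, h9⟩

private theorem NC_short1 (h : P.Ax) {f f' f'' : C} {i j i2 j2 : JJ W C Z} {e e2 : Ch C Z}
    (h1 : P.vt i = P.vt j ∧
      P.pos i < P.pos j ∧ P.inb i (mi e) ∧ P.inb j (.m f) ∧ P.inb j (.m f') ∧
      P.belowP (P.vt i) e ∧ P.belowP (P.vt i) (.inl f) ∧ P.belowP (P.vt i) (.inl f') ∧
      P.hgt e < P.hgt (.inl f) ∧ P.hgt e < P.hgt (.inl f'))
    (h2 : P.vt i2 = P.vt j2 ∧
      P.pos i2 < P.pos j2 ∧ P.inb i2 (mi e2) ∧ P.inb j2 (.m f') ∧ P.inb j2 (.m f'') ∧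
      P.belowP (P.vt i2) e2 ∧ P.belowP (P.vt i2) (.inl f') ∧ P.belowP (P.vt i2) (.inl f'') ∧
      P.hgt e2 < P.hgt (.inl f') ∧ P.hgt e2 < P.hgt (.inl f''))
    (hlt : P.pm f'' < P.pm f') (hw : P.vt i = P.vt i2 ∨ P.Anc (P.vt i) (P.vt i2)) :
    P.Dir f f'' := by
  obtain ⟨a1, a2, a3, a4, a5, a6, a7, a8, a9, a10⟩ := h1
  obtain ⟨b1, b2, b3, b4, b5, b6, b7, b8, b9, b10⟩ := h2
  have hbj : P.bey (P.vt i) (.m f') := by
    have := h.inb_bey a5
    rwa [← a1] at this
  rcases hw with hw | hw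
  · have hj : j = j2 := (h.part hbj).unique ⟨a1.symm, a5⟩ ⟨by rw [← b1, hw], b4⟩
    subst hj
    rcases le_or_gt (P.hgt e) (P.hgt e2) with hc | hc
    · exact ⟨i, j, e, a1, a2, a3, a4, b5, a6, a7, by rw [hw]; exact b8, a9, lt_of_le_of_lt hc b10⟩
    · exact ⟨i2, j, e2, b1, b2, b3, a4, b5, b6, by rw [← hw]; exact a7, b8, hc.trans a9, b10⟩
  · obtain ⟨k, hk1, hk2, hk3⟩ := h.anc_branch hw
    have hb2 : P.bey (P.vt i2) (.m f') := by
      have := h.inb_bey b4
      rwa [← b1] at this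
    have hb2' : P.bey (P.vt i2) (.m f'') := by
      have := h.inb_bey b5
      rwa [← b1] at this
    have hkj : k = j := (h.part hbj).unique ⟨hk1, hk3 _ hb2⟩ ⟨a1.symm, a5⟩
    subst hkj
    have c1 : P.inb k (.m f'') := hk3 _ hb2'
    have c2 : P.inb k (mi e2) := hk3 _ (h.inb_bey b3)
    have c3 : P.pm f' < P.hi (P.vt i2) := hb2.2
    have c4 : P.hi (P.vt i2) ≤ P.pp f'' := h.pp_ge hb2' (b8 (.p f'') rfl)
    have c5 := h.a6 f'' f' hlt (lt_of_lt_of_le c3 c4)
    have c6 : P.hi (P.vt i) ≤ P.pp f' := h.pp_ge hbj (a8 (.p f') rfl)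
    have c7 : P.belowP (P.vt i) (.inl f'') := by
      intro x hx hb
      have hx' : JJ.p f'' = x := Option.some.inj hx
      subst hx'
      have : P.pp f'' < P.hi (P.vt i) := hb.2
      omega
    have c8 : P.belowP (P.vt i) e2 := by
      cases e2 with
      | inr k => intro x hx; cases hx
      | inl g =>
        intro x hx hb
        have hx' : JJ.p g = x := Option.some.inj hx
        subst hx'
        have d1 : P.lo (P.vt i) ≤ P.lo (P.pv g) := (h.bey_iff.1 hb).1
        have d2 : P.lo (P.pv g) + 1 < P.lo (P.pv f') + 1 := b9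
        have d3 := (h.anc_of_below a8 hbj).1
        omega
    have c9 := h.nc a1 a2 a3 c2 a6 c8
    exact ⟨i, k, e, a1, a2, a3, a4, c1, a6, a7, c7, a9, lt_of_le_of_lt c9 b10⟩

theorem Ax.Dir_short (h : P.Ax) {f f' f'' : C} (h1 : P.Dir f f') (h2 : P.Dir f' f'')
    (h3 : P.pm f < P.pm f') (h4 : P.pm f'' < P.pm f') : P.Dir f f'' := by
  obtain ⟨i, j, e, a1, a2, a3, a4, a5, a6, a7, a8, a9, a10⟩ := h1
  obtain ⟨i2, j2, e2, b1, b2, b3, b4, b5, b6, b7, b8, b9, b10⟩ := h2
  have hb1 : P.bey (P.vt i) (.m f') := by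
    have := h.inb_bey a5
    rwa [← a1] at this
  have hb2 : P.bey (P.vt i2) (.m f') := by
    have := h.inb_bey b4
    rwa [← b1] at this
  rcases lt_trichotomy (P.lo (P.vt i)) (P.lo (P.vt i2)) with hl | hl | hl
  · exact NC_short1 h ⟨a1, a2, a3, a4, a5, a6, a7, a8, a9, a10⟩
      ⟨b1, b2, b3, b4, b5, b6, b7, b8, b9, b10⟩ h4
      (Or.inr ⟨hl, h.bey_comp hb2 hb1 hl.le⟩)
  · exact NC_short1 h ⟨a1, a2, a3, a4, a5, a6, a7, a8, a9, a10⟩
      ⟨b1, b2, b3, b4, b5, b6, b7, b8, b9, b10⟩ h4 (Or.inl (h.lo_inj hl))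
  · exact (NC_short1 h ⟨b1, b2, b3, b5, b4, b6, b8, b7, b10, b9⟩
      ⟨a1, a2, a3, a5, a4, a6, a8, a7, a10, a9⟩ h3
      (Or.inr ⟨hl, h.bey_comp hb1 hb2 hl.le⟩)).symm

theorem Ax.kept_unique (h : P.Ax) {n : ℕ} {f f0 : C} (hf : P.BI n f) (hf0 : P.BI n f0)
    (he : Relation.EqvGen P.Dir f0 f) : f = f0 := by
  set r : C → C → Prop := fun a b => P.Dir a b ∧ P.pm b < P.pm a with hr
  have hinj : ∀ a b : C, P.pm a = P.pm b → a = b := by
    intro a b hab
    have h1 : (JJ.m a : JJ W C Z) = .m b := h.a4 hab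
    injection h1
  have hCR : ∀ a b c, r a b → r a c → ∃ d, Relation.ReflGen r b d ∧ Relation.ReflTransGen r c d := by
    rintro a b c ⟨hab, hab'⟩ ⟨hac, hac'⟩
    have hbc := h.Dir_short hab.symm hac hab' hac'
    rcases lt_trichotomy (P.pm b) (P.pm c) with hl | hl | hl
    · exact ⟨b, Relation.ReflGen.refl, Relation.ReflTransGen.single ⟨hbc.symm, hl⟩⟩
    · have := hinj b c hl
      subst this
      exact ⟨b, Relation.ReflGen.refl, Relation.ReflTransGen.refl⟩
    · exact ⟨c, Relation.ReflGen.single ⟨hbc, hl⟩, Relation.ReflTransGen.refl⟩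
  have hE : Equivalence (Relation.Join (Relation.ReflTransGen r)) :=
    Relation.equivalence_join_reflTransGen hCR
  have hJ' : ∀ x y, Relation.EqvGen P.Dir x y → Relation.Join (Relation.ReflTransGen r) x y := by
    intro x y hxy
    induction hxy with
    | rel x y hxy =>
      rcases lt_trichotomy (P.pm x) (P.pm y) with hl | hl | hl
      · exact ⟨x, Relation.ReflTransGen.refl, Relation.ReflTransGen.single ⟨hxy.symm, hl⟩⟩
      · have := hinj x y hl
        subst this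
        exact hE.refl x
      · exact ⟨y, Relation.ReflTransGen.single ⟨hxy, hl⟩, Relation.ReflTransGen.refl⟩
    | refl x => exact hE.refl x
    | symm x y _ ih => exact hE.symm ih
    | trans x y z _ _ ih1 ih2 => exact hE.trans ih1 ih2
  obtain ⟨d, hd1, hd2⟩ := hJ' _ _ he
  have hno : ∀ {g : C}, P.BI n g → ∀ {c : C}, Relation.ReflTransGen r g c → g = c := by
    intro g hg c hc
    rcases Relation.ReflTransGen.cases_head hc with h1 | ⟨c', h1, -⟩
    · exact h1
    · exact absurd h1.2 (not_lt.mpr (hg.2.2 c' h1.1))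
  rw [hno hf hd2, hno hf0 hd1]

end PD

end GB
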