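import Pool.Agent.Helper95.GB.IN.NC

/-! # GB/IN/Star: exchange phases from data (stub, prove in place)

Let `Lo i` be: `low (vt i) i`.  For two branches `i`, `j` at one vertex with `pos i < pos j` put
 `S0 i j = β i j` if `NP i`, `NP j`, `Lo i`, `Lo j`;
 `S0 i (p f) = va f` if `NP i`, `Lo i`, `inb i (m f)`;
 `S0 i (p f) = β i k` if `NP i`, `Lo i`, `pos i < pos k`, `Lo k`, where `k` is the branch of `m f` at `pv f`;
 `S0 (p f) j = β k j` if `NP j`, `Lo j`, `Lo k`, `k` as before;
 `S0 i j = 0` in all other cases.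
For `i ≠ j` at one vertex let `S i j = S0 i j` if `pos i < pos j` and `- S0 j i` otherwise.
`SS x y = S i j` if there are `i ≠ j` at one vertex with `inb i x`, `inb j y`, and `0` otherwise (`i`, `j` are unique: if also `i'`, `j'`,
then `anc_of_meet`-type arguments: the vertices are comparable, if `Anc (vt i') (vt i)` then one branch at `vt i'`
contains both `x` and `y`; so `vt i = vt i'` and `i = i'`, `j = j'` by `Ax.part`).
* `anti`: clear.  * `cmp`: if `inb x y` and `inb i x`, `inb j y` then `inb i y` and `i = j`.  * `br`: uniqueness.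
* `rel`: let `v = pv f`, `bey v (mi e)`, `belowP v e`; `i` the branch of `mi e` at `v` (`NP`, `Lo`), `k` the branch of `m f` at `v`,
`pos k < pos (p f)` (`a5`, `sep`).  `SS (mi e) (p f) = S i (p f)`.
 (a) `i = k`: `S i (p f) = va f`.  `mi e ≠ m f` (`e` is below `v`, `f` is not: `bey v (p f)`), both are leaves, so by `Ax.meet` there are
`i' ≠ j'` at `w` with `inb i' (mi e)`, `inb j' (m f)`; `anc_of_meet`: `Anc v w`; `NP`; `e` and `inl f` are below `w`, `Lo i'`, `Lo j'`;
`hgt e < hgt (inl f)` (`anc_of_below` for `e = inl c`).  If `pos j' < pos i'`, `nc` gives `hgt (inl f) ≤ hgt e`, contradiction.  So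
`pos i' < pos j'`, `Wit i' j' e f`, and `SS (mi e) (m f) = β i' j' = va f`.
 (b) `pos i < pos k`: `S i (p f) = β i k` if `Lo k`, `0` otherwise, and the same holds for `S i k = SS (mi e) (m f)`.
 (c) `pos k < pos i < pos (p f)`: `pm f < pos (mi e) < pp f` (`sep`).  For `e = inr` contradiction to `a7`; for `e = inl c`:
`pp c < pp f` (`a6`), `pp_ge`: `hi v ≤ pp c`, but `pp f < hi v` (`a1`), contradiction.
 (d) `pos (p f) < pos i`: `S i (p f) = - S0 (p f) i = - β k i` if `Lo k`, `0` otherwise; the same for `S i k = - S0 k i`.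
* The two last statements: `S0 i (p f) = va f` for the branch `i` of `m f` (`SS i (p f) = S i (p f)` by uniqueness, `pos i < pos (p f)`),
and `S0 i j = β i j`.
-/

set_option autoImplicit false

namespace GB

namespace PD

variable {W C Z : Type} {P : PD W C Z}

open Classical in
/-- exchange phases for branches in the order of their positions -/
noncomputable def starA (P : PD W C Z) (kb : C → JJ W C Z) (va : C → ℤ)
    (β : JJ W C Z → JJ W C Z → ℤ) (i j : JJ W C Z) : ℤ :=
  match i, j with
  | .p _, .p _ => 0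
  | .p f, j => if P.low (P.vt j) j ∧ P.low (P.pv f) (kb f) then β (kb f) j else 0
  | i, .p f => if P.low (P.vt i) i then (if P.inb i (.m f) then va f else
      if P.pos i < P.pos (kb f) ∧ P.low (P.pv f) (kb f) then β i (kb f) else 0) else 0
  | i, j => if P.low (P.vt i) i ∧ P.low (P.vt j) j then β i j else 0

open Classical in
theorem starA_np_np (kb : C → JJ W C Z) (va : C → ℤ) (β : JJ W C Z → JJ W C Z → ℤ)
    {i j : JJ W C Z} (hi : NP i) (hj : NP j) :
    starA P kb va β i j = if P.low (P.vt i) i ∧ P.low (P.vt j) j then β i j else 0 := by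
  cases i <;> cases j <;> first | rfl | exact absurd rfl (hi _) | exact absurd rfl (hj _)

open Classical in
theorem starA_np_p (kb : C → JJ W C Z) (va : C → ℤ) (β : JJ W C Z → JJ W C Z → ℤ)
    {i : JJ W C Z} (hi : NP i) (f : C) :
    starA P kb va β i (.p f) = if P.low (P.vt i) i then (if P.inb i (.m f) then va f else
      if P.pos i < P.pos (kb f) ∧ P.low (P.pv f) (kb f) then β i (kb f) else 0) else 0 := by
  cases i <;> first | rfl | exact absurd rfl (hi _)

open Classical in
theorem starA_p_np (kb : C → JJ W C Z) (va : C → ℤ) (β : JJ W C Z → JJ W C Z → ℤ)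
    {j : JJ W C Z} (hj : NP j) (f : C) :
    starA P kb va β (.p f) j =
      if P.low (P.vt j) j ∧ P.low (P.pv f) (kb f) then β (kb f) j else 0 := by
  cases j <;> first | rfl | exact absurd rfl (hj _)

open Classical in
/-- antisymmetric extension -/
noncomputable def starB (P : PD W C Z) (kb : C → JJ W C Z) (va : C → ℤ)
    (β : JJ W C Z → JJ W C Z → ℤ) (i j : JJ W C Z) : ℤ :=
  if P.pos i < P.pos j then starA P kb va β i j else - starA P kb va β j i

theorem starB_lt (kb : C → JJ W C Z) (va : C → ℤ) (β : JJ W C Z → JJ W C Z → ℤ)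
    {i j : JJ W C Z} (hp : P.pos i < P.pos j) :
    starB P kb va β i j = starA P kb va β i j := by
  unfold starB
  rw [if_pos hp]

theorem starB_gt (kb : C → JJ W C Z) (va : C → ℤ) (β : JJ W C Z → JJ W C Z → ℤ)
    {i j : JJ W C Z} (hp : P.pos j < P.pos i) :
    starB P kb va β i j = - starA P kb va β j i := by
  unfold starB
  rw [if_neg (by omega)]

theorem Ax.star_pair_uniq (h : P.Ax) {i j i' j' x y : JJ W C Z} (hv : P.vt i = P.vt j)
    (hne : i ≠ j) (hx : P.inb i x) (hy : P.inb j y) (hv' : P.vt i' = P.vt j') (hne' : i' ≠ j')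
    (hx' : P.inb i' x) (hy' : P.inb j' y) : i = i' ∧ j = j' := by
  have hix := h.inb_bey hx
  have hjy := h.inb_bey hy
  have hix' := h.inb_bey hx'
  have hjy' := h.inb_bey hy'
  rcases lt_trichotomy (P.lo (P.vt i)) (P.lo (P.vt i')) with h1 | h1 | h1
  · exfalso
    have ha : P.Anc (P.vt i) (P.vt i') := ⟨h1, h.bey_comp hix' hix h1.le⟩
    obtain ⟨k, hk1, -, hk2⟩ := h.anc_branch ha
    have h2 := (h.part hix).unique ⟨rfl, hx⟩ ⟨hk1, hk2 x hix'⟩
    have h3 := (h.part hjy).unique ⟨rfl, hy⟩ ⟨hk1.trans hv, hk2 y (by rw [hv']; exact hjy')⟩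
    exact hne (h2.trans h3.symm)
  · have h2 : P.vt i = P.vt i' := h.lo_inj h1
    refine ⟨(h.part hix).unique ⟨rfl, hx⟩ ⟨h2.symm, hx'⟩,
      (h.part hjy).unique ⟨rfl, hy⟩ ⟨?_, hy'⟩⟩
    rw [← hv', ← h2, hv]
  · exfalso
    have ha : P.Anc (P.vt i') (P.vt i) := ⟨h1, h.bey_comp hix hix' h1.le⟩
    obtain ⟨k, hk1, -, hk2⟩ := h.anc_branch ha
    have h2 := (h.part hix').unique ⟨rfl, hx'⟩ ⟨hk1, hk2 x hix⟩
    have h3 := (h.part hjy').unique ⟨rfl, hy'⟩ ⟨hk1.trans hv', hk2 y (by rw [hv]; exact hjy)⟩
    exact hne' (h2.trans h3.symm)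

open Classical in
/-- the exchange phases -/
noncomputable def starC (P : PD W C Z) (kb : C → JJ W C Z) (va : C → ℤ)
    (β : JJ W C Z → JJ W C Z → ℤ) (x y : JJ W C Z) : ℤ :=
  if hh : ∃ ij : JJ W C Z × JJ W C Z, P.vt ij.1 = P.vt ij.2 ∧ ij.1 ≠ ij.2 ∧
    P.inb ij.1 x ∧ P.inb ij.2 y then starB P kb va β hh.choose.1 hh.choose.2 else 0

theorem Ax.starC_eq (h : P.Ax) (kb : C → JJ W C Z) (va : C → ℤ) (β : JJ W C Z → JJ W C Z → ℤ)
    {i j x y : JJ W C Z} (hv : P.vt i = P.vt j) (hne : i ≠ j) (hx : P.inb i x)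
    (hy : P.inb j y) : starC P kb va β x y = starB P kb va β i j := by
  have hh : ∃ ij : JJ W C Z × JJ W C Z, P.vt ij.1 = P.vt ij.2 ∧ ij.1 ≠ ij.2 ∧
    P.inb ij.1 x ∧ P.inb ij.2 y := ⟨(i, j), hv, hne, hx, hy⟩
  unfold starC
  rw [dif_pos hh]
  obtain ⟨h1, h2, h3, h4⟩ := hh.choose_spec
  obtain ⟨e1, e2⟩ := h.star_pair_uniq hv hne hx hy h1 h2 h3 h4
  rw [← e1, ← e2]

theorem Ax.star_of (h : P.Ax) (va : C → ℤ) (β : JJ W C Z → JJ W C Z → ℤ)
    (hD : P.Dat va β) : ∃ SS : JJ W C Z → JJ W C Z → ℤ, P.Star SS ∧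
      (∀ i f, P.vt i = P.pv f → P.inb i (.m f) → P.low (P.vt i) i → SS i (.p f) = va f) ∧
      (∀ i j, P.vt i = P.vt j → P.pos i < P.pos j → NP i → NP j → P.low (P.vt i) i →
        P.low (P.vt i) j → SS i j = β i j) := by
  classical
  choose kb hkb1 hkb2 hkb3 using fun c => h.m_branch c
  -- the branch of the minus end is left of the plus end
  have hkp : ∀ f, P.pos (kb f) < P.pos (.p f) := by
    intro f
    rcases lt_trichotomy (P.pos (kb f)) (P.pos (.p f)) with h1 | h1 | h1
    · exact h1
    · exact absurd (h.a4 h1) (hkb3 f f)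
    · exfalso
      have h2 := h.sep (i := .p f) (j := kb f) (hkb1 f).symm h1 (h.inb_self _) (hkb2 f)
      have h3 := (h.a5 f).2.2
      change P.pp f < P.pm f at h2
      omega
  have hposne : ∀ {i j : JJ W C Z}, i ≠ j → P.pos i ≠ P.pos j := fun hne hh => hne (h.a4 hh)
  refine ⟨starC P kb va β, ⟨?_, ?_, ?_, ?_⟩, ?_, ?_⟩
  · -- anti
    intro x y
    by_cases hh : ∃ ij : JJ W C Z × JJ W C Z, P.vt ij.1 = P.vt ij.2 ∧ ij.1 ≠ ij.2 ∧
      P.inb ij.1 x ∧ P.inb ij.2 y
    · obtain ⟨⟨i, j⟩, hv, hne, hx, hy⟩ := hh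
      change P.vt i = P.vt j at hv
      change i ≠ j at hne
      rw [h.starC_eq kb va β hv hne hx hy, h.starC_eq kb va β hv.symm hne.symm hy hx]
      rcases lt_or_gt_of_ne (hposne hne) with hp | hp
      · rw [starB_lt kb va β hp, starB_gt kb va β hp]
      · rw [starB_lt kb va β hp, starB_gt kb va β hp, neg_neg]
    · have hh' : ¬ ∃ ij : JJ W C Z × JJ W C Z, P.vt ij.1 = P.vt ij.2 ∧ ij.1 ≠ ij.2 ∧
        P.inb ij.1 y ∧ P.inb ij.2 x := by
        rintro ⟨⟨i, j⟩, hv, hne, hx, hy⟩
        exact hh ⟨(j, i), hv.symm, Ne.symm hne, hy, hx⟩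
      unfold starC
      rw [dif_neg hh, dif_neg hh', neg_zero]
  · -- cmp
    intro x y hxy
    unfold starC
    rw [dif_neg]
    rintro ⟨⟨i, j⟩, hv, hne, hx, hy⟩
    change P.vt i = P.vt j at hv
    exact hne ((h.part (h.inb_bey hy)).unique ⟨hv, h.inb_trans hx hxy⟩ ⟨rfl, hy⟩)
  · -- br
    intro i j x y hv hne hx hy
    rw [h.starC_eq kb va β hv hne hx hy,
      h.starC_eq kb va β hv hne (h.inb_self i) (h.inb_self j)]
  · -- rel
    intro e f he hb
    obtain ⟨i, ⟨hi1, hi2⟩, -⟩ := h.part he
    have hiN : NP i := h.np_mi hi2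
    have hk1 := hkb1 f
    have hk2 := hkb2 f
    have hk3 : NP (kb f) := hkb3 f
    have hLi : P.low (P.vt i) i := ⟨e, hi2, by rw [hi1]; exact hb⟩
    have hvp : P.vt (.p f) = P.pv f := rfl
    have hip : i ≠ .p f := hiN f
    have hS1 : starC P kb va β (mi e) (.p f) = starB P kb va β i (.p f) :=
      h.starC_eq kb va β (hi1.trans hvp.symm) hip hi2 (h.inb_self _)
    rw [hS1]
    by_cases hik : i = kb f
    · -- (a)
      have hif : P.inb i (.m f) := by rw [hik]; exact hk2
      have hpi : P.pos i < P.pos (.p f) := by rw [hik]; exact hkp f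
      rw [starB_lt kb va β hpi, starA_np_p kb va β hiN, if_pos hLi, if_pos hif]
      have hmne : (mi e : JJ W C Z) ≠ .m f := by
        intro hcon
        cases e with
        | inl c =>
          have hc : c = f := by
            change (JJ.m c : JJ W C Z) = JJ.m f at hcon
            injection hcon
          subst hc
          exact hb (.p c) rfl (by
            have := h.inb_bey (h.inb_self (.p c))
            exact this)
        | inr z => cases hcon
      have hleaf : ∀ (e' : Ch C Z) {y : JJ W C Z}, P.inb (mi e') y → y = mi e' := by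
        intro e' y hy
        refine (h.inb_leaf ?_).1 hy
        intro a
        cases e' <;> simp [mi]
      rcases h.meet (mi e) (.m f) with h1 | h1 | ⟨i', j', hv', hne', hx', hy'⟩
      · exact absurd (hleaf e h1).symm hmne
      · exact absurd (hleaf (.inl f) h1) hmne
      · have hA := h.anc_of_meet hi2 hif hv' hne' hx' hy'
        rw [hi1] at hA
        have hi'N : NP i' := h.np_mi hx'
        have hj'N : NP j' := h.np_mi (e := .inl f) hy'
        have hbe : P.belowP (P.vt i') e := fun x hx hbx => hb x hx (hA.bey hbx)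
        have hbf : P.belowP (P.vt i') (.inl f) := h.below_of_anc hA
        have hh : P.hgt e < P.hgt (.inl f) := by
          cases e with
          | inl c =>
            have h2 := h.anc_of_below hb he
            change P.lo (P.pv c) + 1 < P.lo (P.pv f) + 1
            have := h2.1
            omega
          | inr z =>
            change 0 < P.lo (P.pv f) + 1
            omega
        have hpos : P.pos i' < P.pos j' := by
          rcases lt_or_gt_of_ne (hposne hne') with hp | hp
          · exact hp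
          · exfalso
            have h3 := h.nc (e := .inl f) (f := e) hv'.symm hp hy' hx'
              (by rw [← hv']; exact hbf) (by rw [← hv']; exact hbe)
            omega
        have hW : P.Wit i' j' e f := ⟨hv', hpos, hx', hy', hbe, hbf, hh⟩
        rw [h.starC_eq kb va β hv' hne' hx' hy', starB_lt kb va β hpos,
          starA_np_np kb va β hi'N hj'N,
          if_pos ⟨⟨e, hx', hbe⟩, ⟨.inl f, hy', by rw [← hv']; exact hbf⟩⟩]
        exact (hD i' j' e f hW).symm
    · have hvik : P.vt i = P.vt (kb f) := hi1.trans hk1.symm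
      rw [h.starC_eq kb va β hvik hik hi2 hk2]
      have hnif : ¬ P.inb i (.m f) := by
        intro hif
        exact hik ((h.part (h.inb_bey hk2)).unique ⟨hvik, hif⟩ ⟨rfl, hk2⟩)
      rcases lt_or_gt_of_ne (hposne hik) with hp | hp
      · -- (b)
        have hpi : P.pos i < P.pos (.p f) := hp.trans (hkp f)
        rw [starB_lt kb va β hpi, starB_lt kb va β hp, starA_np_p kb va β hiN,
          starA_np_np kb va β hiN hk3, if_pos hLi, if_neg hnif, hk1]
        by_cases hLk : P.low (P.pv f) (kb f)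
        · rw [if_pos ⟨hp, hLk⟩, if_pos ⟨hLi, hLk⟩]
        · rw [if_neg (fun hh => hLk hh.2), if_neg (fun hh => hLk hh.2)]
      · rcases lt_or_gt_of_ne (hposne hip) with hp2 | hp2
        · -- (c)
          exfalso
          have h1 := h.sep hvik.symm hp hk2 hi2
          have h2 := h.sep (hi1.trans hvp.symm) hp2 hi2 (h.inb_self _)
          cases e with
          | inl c =>
            change P.pm f < P.pm c at h1
            change P.pm c < P.pp f at h2
            have h3 := h.a6 f c h1 h2
            have h4 := h.pp_ge (v := P.pv f) (c := c) he (hb _ rfl)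
            have h5 := (h.a1 (.p f)).2
            change P.pp f < P.hi (P.pv f) at h5
            omega
          | inr z =>
            exact h.a7 f z ⟨h1, h2⟩
        · -- (d)
          rw [starB_gt kb va β hp2, starB_gt kb va β hp, starA_p_np kb va β hiN,
            starA_np_np kb va β hk3 hiN, hk1]
          by_cases hLk : P.low (P.pv f) (kb f)
          · rw [if_pos ⟨hLi, hLk⟩, if_pos ⟨hLk, hLi⟩]
          · rw [if_neg (fun hh => hLk hh.2), if_neg (fun hh => hLk hh.1)]
  · intro i f hv hif hLi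
    have hiN : NP i := h.np_mi (e := .inl f) hif
    have hik : i = kb f :=
      (h.part (h.inb_bey (hkb2 f))).unique ⟨hv.trans (hkb1 f).symm, hif⟩ ⟨rfl, hkb2 f⟩
    have hpi : P.pos i < P.pos (.p f) := by rw [hik]; exact hkp f
    have hvp : P.vt (.p f) = P.pv f := rfl
    rw [h.starC_eq kb va β (hv.trans hvp.symm) (hiN f) (h.inb_self _) (h.inb_self _),
      starB_lt kb va β hpi, starA_np_p kb va β hiN, if_pos hLi, if_pos hif]
  · intro i j hv hp hi hj hLi hLj
    have hne : i ≠ j := fun hh => by rw [hh] at hp; exact lt_irrefl _ hp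
    rw [h.starC_eq kb va β hv hne (h.inb_self _) (h.inb_self _), starB_lt kb va β hp,
      starA_np_np kb va β hi hj, if_pos ⟨hLi, by rw [← hv]; exact hLj⟩]

end PD

end GB
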