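import Pool.Agent.Helper95.GB.Iface

/-! # GB/IN/Tri: triangular families are independent (stub, prove in place)

Let `m : ι →₀ ℤ` with all sums zero, `m ≠ 0`.  Choose `i` in the support of `m` with `lev i` minimal
(`Finset.exists_min_image`), and `φ` for this `i`.  In the sum only the term of `i` survives: for `j` in the support, `j ≠ i`:
if `φ (T j) ≠ 1` then `lev j < lev i`, a contradiction.  So `m i * toAdd (φ (T i)) = 0`, a contradiction.
-/

set_option autoImplicit false

namespace GB

theorem ind_of_tri {G : Type} [Group G] {ι : Type} (T : ι → G) (lev : ι → ℕ)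
    (hT : ∀ i, ∃ φ : G →* Multiplicative ℤ, Multiplicative.toAdd (φ (T i)) ≠ 0 ∧
      ∀ j, Multiplicative.toAdd (φ (T j)) ≠ 0 → j = i ∨ lev j < lev i) : Ind T := by
  classical
  intro m hm
  by_contra hne
  have hsupp : m.support.Nonempty := Finsupp.support_nonempty_iff.2 hne
  obtain ⟨i, hi, hmin⟩ := Finset.exists_min_image m.support lev hsupp
  obtain ⟨φ, hφ, hφj⟩ := hT i
  have h1 := hm φ
  rw [Finsupp.sum, Finset.sum_eq_single_of_mem i hi] at h1
  · rcases mul_eq_zero.1 h1 with h2 | h2
    · exact (Finsupp.mem_support_iff.1 hi) h2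
    · exact hφ h2
  · intro j hj hji
    by_contra h2
    have h3 : Multiplicative.toAdd (φ (T j)) ≠ 0 := fun h3 => h2 (by rw [h3, mul_zero])
    rcases hφj j h3 with h4 | h4
    · exact hji h4
    · exact absurd (hmin j hj) (by omega)

end GB
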