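import Pool.Agent.Helper95.GB.IN.Defs

/-! # GB/IN/Walk: characters from cocycles, values of walks (proved)

* `char`: `l (j, M) = Multiplicative.ofAdd (c j M)` satisfies `Cx.Lab` (the 2-cells of `DG.cx` and `hc`); `D.univ` gives
`φ`; `Multiplicative.toAdd (P.dg.cx.val l w) = av c w` by induction on `w`.
* `av_append`, `av_rv`: lists.   * `av_wq`: strong induction on `lo (vt x)`: for `vt x = none`, `wq x M = [((x,M),true)]`
(`path_none`); for `vt x = some a` use `Ax.wq_some` and the induction hypothesis for `t a` (`vt (t a) = par a`, `Ax.par_lt`).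
* `av_exw`: `rn_append`, `rn S' [x, y] = wq x (S' - δ r) ++ wq y (S' - δ r + δ (ed x) - δ r)` and
`fin S (X ++ [x]) = fin S X - δ r + δ (ed x)` (`fin_append`); `av_append`, `av_rv`.
* `exw_closed`: `Ax.rn_walk` (`(st n) r = n`), `fin_eq` gives `fin (st n) (X ++ [x,y]) = fin (st n) (X ++ [y,x])`; `rv` is
`P.dg.cx.rev`, `Cx.isWalk_append`, `Cx.isWalk_rev`.
* `tw_closed`: for `.e e`: `rn_walk` for `[mi e]` and for `plL e`; the ends agree (`ed (m c) = ed (p c)`; for `z k` the end of
`[z k]` is `n δ r - δ r + δ r = n δ r`, using `1 ≤ n`).  Others: `exw_closed` (`(X.toList).length = X.card`).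
-/

set_option autoImplicit false

namespace GB

namespace PD

variable {W C Z : Type} {P : PD W C Z}

theorem char {G : Type} [Group G] {n : ℕ} (D : PiD P.dg.cx (st n) G)
    (c : JJ W C Z → (EE W C →₀ ℕ) → ℤ) (hc : P.Coc c) :
    ∃ φ : G →* Multiplicative ℤ, ∀ w, P.dg.cx.IsWalk (st n) w (st n) →
      Multiplicative.toAdd (φ (P.dg.cx.val D.g w)) = av c w := by
  have hlab : P.dg.cx.Lab (fun p : P.dg.cx.Ed =>
      (Multiplicative.ofAdd (c p.1 p.2) : Multiplicative ℤ)) := by
    rintro a b c' d ⟨i, j, M, hij, rfl, rfl, rfl, rfl⟩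
    have h1 := hc i j M hij
    show Multiplicative.ofAdd (c i (M + δ (be (P.vt j)))) *
        Multiplicative.ofAdd (c j (M + δ (ed i))) =
      Multiplicative.ofAdd (c j (M + δ (be (P.vt i)))) *
        Multiplicative.ofAdd (c i (M + δ (ed j)))
    rw [← ofAdd_add, ← ofAdd_add, h1]
  obtain ⟨φ, hφ⟩ := D.univ (Multiplicative ℤ) _ hlab
  refine ⟨φ, fun w hw => ?_⟩
  rw [hφ w hw]
  clear hw
  induction w with
  | nil => rfl
  | cons a w ih =>
    rcases a with ⟨⟨j, M⟩, b⟩
    have h2 : av c (((j, M), b) :: w) = (if b then c j M else - c j M) + av c w := by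
      unfold av
      rw [List.map_cons, List.sum_cons]
    refine Eq.trans ?_ h2.symm
    refine Eq.trans ?_ (congrArg (fun t => (if b then c j M else - c j M) + t) ih)
    rcases b with _ | _
    · rfl
    · rfl

theorem av_append (c : JJ W C Z → (EE W C →₀ ℕ) → ℤ) (u v : Wk W C Z) :
    av c (u ++ v) = av c u + av c v := by
  unfold av
  rw [List.map_append, List.sum_append]

theorem av_rv (c : JJ W C Z → (EE W C →₀ ℕ) → ℤ) (u : Wk W C Z) :
    av c (rv u) = - av c u := by
  induction u with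
  | nil => rfl
  | cons a u ih =>
    have h1 : rv (a :: u) = rv u ++ [(a.1, !a.2)] := by
      unfold rv
      rw [List.map_cons, List.reverse_cons]
    have h2 : av c (a :: u) = (if a.2 then c a.1.1 a.1.2 else - c a.1.1 a.1.2) + av c u := by
      unfold av
      rw [List.map_cons, List.sum_cons]
    have h3 : av c [(a.1, !a.2)] = - (if a.2 then c a.1.1 a.1.2 else - c a.1.1 a.1.2) := by
      rcases a with ⟨a, b⟩
      rcases b with _ | _
      · simp [av]
      · simp [av]
    rw [h1, av_append, ih, h2, h3]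
    ring

theorem Ax.av_wq (h : P.Ax) (c : JJ W C Z → (EE W C →₀ ℕ) → ℤ) (M : EE W C →₀ ℕ)
    (F : JJ W C Z → ℤ) (h0 : ∀ x, P.vt x = none → F x = c x M)
    (h1 : ∀ x a, P.vt x = some a → F x = F (.t a) + c x M) (x : JJ W C Z) :
    av c (P.wq x M) = F x := by
  induction hn : P.lo (P.vt x) using Nat.strong_induction_on generalizing x with
  | _ n ih =>
    rcases hv : P.vt x with _ | a
    · have h2 : P.wq x M = [((x, M), true)] := by
        unfold wq
        rw [hv, path_none]
        rfl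
      rw [h2, h0 x hv]
      simp [av]
    · have h2 := h.par_lt a
      rw [hv] at hn
      rw [h.wq_some x a hv, av_append, h1 x a hv, ih (P.lo (P.par a)) (by omega) (.t a) rfl]
      simp [av]

theorem av_exw (c : JJ W C Z → (EE W C →₀ ℕ) → ℤ) (S : EE W C →₀ ℕ) (X : List (JJ W C Z))
    (x y : JJ W C Z) : av c (P.exw S X x y) =
      av c (P.wq x (fin S X - δ EE.r)) + av c (P.wq y (fin S (X ++ [x]) - δ EE.r)) -
      (av c (P.wq y (fin S X - δ EE.r)) + av c (P.wq x (fin S (X ++ [y]) - δ EE.r))) := by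
  have h1 : ∀ x y : JJ W C Z, av c (P.rn S (X ++ [x, y])) = av c (P.rn S X) +
      (av c (P.wq x (fin S X - δ EE.r)) + av c (P.wq y (fin S (X ++ [x]) - δ EE.r))) := by
    intro x y
    rw [rn_append, av_append, fin_append]
    have h2 : P.rn (fin S X) [x, y] = P.wq x (fin S X - δ EE.r) ++
        (P.wq y (fin (fin S X) [x] - δ EE.r) ++ []) := rfl
    rw [h2, av_append, av_append]
    simp [av]
  unfold exw
  rw [av_append, av_rv, h1 x y, h1 y x]
  ring

theorem Ax.exw_closed (h : P.Ax) {n : ℕ} (X : List (JJ W C Z)) (hX : X.length + 2 ≤ n)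
    (x y : JJ W C Z) : P.dg.cx.IsWalk (st n) (P.exw (st n) X x y) (st n) := by
  have h0 : (st n : EE W C →₀ ℕ) EE.r = n := by
    unfold st
    rw [Finsupp.smul_apply, Finsupp.single_eq_same]
    simp
  have hl : ∀ a b : JJ W C Z, (X ++ [a, b]).length = X.length + 2 := by
    intro a b
    simp
  have h1 : ∀ a b : JJ W C Z, P.dg.cx.IsWalk (st n) (P.rn (st n) (X ++ [a, b]))
      (fin (st n) (X ++ [a, b])) := fun a b => h.rn_walk _ _ (by rw [h0, hl]; exact hX)
  have h2 : fin (st n : EE W C →₀ ℕ) (X ++ [x, y]) = fin (st n) (X ++ [y, x]) := by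
    rw [fin_eq n _ (by rw [hl]; exact hX), fin_eq n _ (by rw [hl]; exact hX), hl, hl]
    simp [add_comm]
  have h3 := h1 x y
  rw [h2] at h3
  exact Cx.isWalk_append h3 (Cx.isWalk_rev (h1 y x))

theorem Ax.tw_closed (h : P.Ax) {n : ℕ} (hn : 1 ≤ n) (τ : P.TI n) :
    P.dg.cx.IsWalk (st n) (P.tw n τ) (st n) := by
  have h0 : (st n : EE W C →₀ ℕ) EE.r = n := by
    unfold st
    rw [Finsupp.smul_apply, Finsupp.single_eq_same]
    simp
  rcases τ with e | ⟨X, i, k, hk⟩ | ⟨f, hb⟩ | ⟨i, j, hq⟩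
  · have h1 : P.dg.cx.IsWalk (st n) (P.rn (st n) [mi e]) (fin (st n) [mi e]) :=
      h.rn_walk _ _ (by rw [h0]; exact hn)
    have h2 : P.dg.cx.IsWalk (st n) (P.rn (st n) (plL e)) (fin (st n) (plL e)) := by
      refine h.rn_walk _ _ ?_
      rw [h0]
      rcases e with c | k
      · exact hn
      · exact Nat.zero_le _
    have h3 : fin (st n : EE W C →₀ ℕ) [(mi e : JJ W C Z)] = fin (st n) (plL e : List (JJ W C Z)) := by
      rcases e with c | k
      · rfl
      · show (st n : EE W C →₀ ℕ) - δ EE.r + δ EE.r = st n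
        exact tsub_add_cancel_of_le (Finsupp.single_le_iff.2 (by rw [h0]; exact hn))
    rw [h3] at h1
    exact Cx.isWalk_append h1 (Cx.isWalk_rev h2)
  · exact h.exw_closed X.toList (by rw [Multiset.length_toList]; exact hk.2.2.2.2.2) i k
  · exact h.exw_closed [] hb.1 (.m f) (.p f)
  · exact h.exw_closed [] hq.1 i j

end PD

end GB
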